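import Pool.Agent.Y209.HB.Abs

/-! Transport of homology statements. -/

namespace Pool.Agent.Y209.HB

universe u v w

open Finsupp

variable {X : Type u} [TopologicalSpace X] {Y : Type v} [TopologicalSpace Y]
  {D : Type w} [TopologicalSpace D]

theorem AcO_of_sec (φ : C(D, X)) {O : Set X} (hφ : ∀ d, φ d ∈ O) (ψ : C(O, D))
    (h : ∀ x : O, φ (ψ x) = x.1) {n : ℕ} (hD : Ac D n) : AcO O n := by
  intro z hz hc
  obtain ⟨z', rfl⟩ := exists_lift hz
  have h1 := hD _ (push_mem_Cyc ψ n z' (mem_Cyc_of_push _ Subtype.val_injective hc))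
  rw [← Bd_univ] at h1
  have h2 := push_mem_Bd φ (O' := O) (fun d _ => hφ d) h1
  rw [push_push] at h2
  have : φ.comp ψ = sub O := ContinuousMap.ext h
  rwa [this] at h2

theorem CnO_of_sec (φ : C(D, X)) {O : Set X} (hφ : ∀ d, φ d ∈ O) (ψ : C(O, D))
    (h : ∀ x : O, φ (ψ x) = x.1) (hD : Cn D) : CnO O := by
  intro z hz hc
  obtain ⟨z', rfl⟩ := exists_lift hz
  have h1 := hD (push ψ 0 z') (by rw [ep_push] at *; exact hc)
  rw [← Bd_univ] at h1
  have h2 := push_mem_Bd φ (O' := O) (fun d _ => hφ d) h1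
  rw [push_push] at h2
  have : φ.comp ψ = sub O := ContinuousMap.ext h
  rwa [this] at h2

theorem spanO_of_HE {O : Set X} {q : C(O, Y)} (hq : HE q) {c : Sing O 1 →₀ ℚ}
    (hc : c ∈ Cyc O 1) {y0 : Sing Y 1 →₀ ℚ}
    (hy : ∀ y ∈ Cyc Y 1, ∃ k : ℚ, y - k • y0 ∈ Bdy Y 1) (hc0 : push q 1 c - y0 ∈ Bdy Y 1) :
    ∀ z ∈ sp O 1, z ∈ Cyc X 1 → ∃ k : ℚ, z - k • push (sub O) 1 c ∈ Bd O 1 := by
  intro z hz hzc
  obtain ⟨z', rfl⟩ := exists_lift hz
  have hz' := mem_Cyc_of_push _ Subtype.val_injective hzc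
  obtain ⟨k, hk⟩ := hy _ (push_mem_Cyc q 1 z' hz')
  refine ⟨k, ?_⟩
  have h1 : push q 1 (z' - k • c) ∈ Bdy Y 1 := by
    have := Submodule.sub_mem _ hk (Submodule.smul_mem _ k hc0)
    have e : push q 1 z' - k • y0 - k • (push q 1 c - y0) = push q 1 (z' - k • c) := by
      rw [map_sub, map_smul, smul_sub]; abel
    rwa [e] at this
  have h2 := (hq 1).1 _ (Submodule.sub_mem _ hz' (Submodule.smul_mem _ k hc)) h1
  have h3 := push_sub_mem_Bd h2
  rwa [map_sub, map_smul] at h3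

/-- a circle `z ↦ c z` in the punctured plane -/
noncomputable def scl (c : ℂ) (hc : c ≠ 0) : C(Circle, P0) :=
  ⟨fun z => ⟨c * (z : ℂ), mul_ne_zero hc (Circle.coe_ne_zero z)⟩, by fun_prop⟩

theorem scl_gP (c : ℂ) (hc : c ≠ 0) : push (scl c hc) 1 g0 - gP ∈ Bdy P0 1 := by
  let H : C(Circle × unitInterval, P0) :=
    ⟨fun p => ⟨Complex.exp ((p.2 : ℝ) * Complex.log c) * (p.1 : ℂ),
      mul_ne_zero (Complex.exp_ne_zero _) (Circle.coe_ne_zero _)⟩, by fun_prop⟩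
  refine push_sub_mem_of_homotopy H cP (scl c hc) ?_ ?_ 1 g0 g0_Cyc
  · intro x
    apply Subtype.ext
    change Complex.exp (((0 : unitInterval) : ℝ) * Complex.log c) * (x : ℂ) = (x : ℂ)
    simp
  · intro x
    apply Subtype.ext
    change Complex.exp (((1 : unitInterval) : ℝ) * Complex.log c) * (x : ℂ) = c * (x : ℂ)
    rw [show (((1 : unitInterval) : ℝ) : ℂ) * Complex.log c = Complex.log c by simp,
      Complex.exp_log hc]

/-- a product with a contractible factor -/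
theorem HE_snd {E : Type u} [TopologicalSpace E] [AddCommGroup E] [Module ℝ E]
    [ContinuousSMul ℝ E] (S : Set (E × Y)) (h : ∀ p ∈ S, ∀ r : ℝ, 0 ≤ r → r ≤ 1 → (r • p.1, p.2) ∈ S)
    (h' : ∀ y : Y, ((0 : E), y) ∈ S) :
    HE (⟨fun p => p.1.2, by fun_prop⟩ : C(S, Y)) := by
  let g : C(Y, S) := ⟨fun y => ⟨(0, y), h' y⟩, by fun_prop⟩
  let H : C(S × unitInterval, S) := ⟨fun p => ⟨((1 - (p.2 : ℝ)) • p.1.1.1, p.1.1.2),
    h _ p.1.2 _ (by linarith [p.2.2.2]) (by linarith [p.2.2.1])⟩, by fun_prop⟩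
  refine HE_of_homotopyEquiv _ g H ⟨fun p => p.1, by fun_prop⟩ ?_ ?_ (fun _ => rfl) (fun _ => rfl)
  · intro x
    apply Subtype.ext
    change ((1 - ((0 : unitInterval) : ℝ)) • x.1.1, x.1.2) = x.1
    simp
  · intro x
    apply Subtype.ext
    change ((1 - ((1 : unitInterval) : ℝ)) • x.1.1, x.1.2) = (0, x.1.2)
    simp

/-- homology equivalence from a homeomorphic parametrisation -/
theorem HE_of_param {O : Set X} (φ : C(D, X)) (hφ : ∀ d, φ d ∈ O) (ψ : C(O, D))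
    (h : ∀ x : O, φ (ψ x) = x.1) (h' : ∀ d, ψ ⟨φ d, hφ d⟩ = d) : HE ψ := by
  refine HE_of_homotopyEquiv ψ ⟨fun d => ⟨φ d, hφ d⟩, by fun_prop⟩ ⟨fun p => p.1, by fun_prop⟩
    ⟨fun p => p.1, by fun_prop⟩ (fun _ => rfl) ?_ (fun _ => rfl) ?_
  · intro x
    exact (Subtype.ext (h x)).symm
  · intro y
    exact (h' y).symm

end Pool.Agent.Y209.HB
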