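import Pool.Agent.Y209.HB.Circ

/-! Removing contractible curves, and comparison with the space blown down. -/

namespace Pool.Agent.Y209.HB

universe u v w

open Finsupp

/-! Comparison with the space blown down. -/

section Comp

variable {B : Type u} [TopologicalSpace B] {C : Type v} [TopologicalSpace C]

theorem tr_inj {P' Q' : Set C} (hQ : Q' ⊆ P') (π : C(B, C)) (s : C(P', B))
    (h1 : ∀ x, π (s x) = x.1) (h2 : ∀ b (hb : π b ∈ P'), s ⟨π b, hb⟩ = b) {n : ℕ}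
    {z : Sing B n →₀ ℚ} (hz : z ∈ sp (π ⁻¹' P') n) (h : push π n z ∈ Bd Q' n) :
    z ∈ Bd (π ⁻¹' Q') n := by
  obtain ⟨w, hw, hw1⟩ := h
  obtain ⟨w', hw', rfl⟩ := lift_sp hQ hw
  obtain ⟨z', rfl⟩ := exists_lift hz
  let πP : C(↥(π ⁻¹' P'), P') := ⟨fun b => ⟨π b.1, b.2⟩, by fun_prop⟩
  have e1 : push π n (push (sub (π ⁻¹' P')) n z') = push (sub P') n (push πP n z') := by
    rw [push_push, push_push]
    rfl
  rw [e1, bdry_push] at hw1
  have e2 := mvx_inj_sub P' n hw1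
  refine ⟨push s (n + 1) w', push_mem_sp s ?_ hw', ?_⟩
  · intro x hx
    change π (s x) ∈ Q'
    rw [h1]
    exact hx
  · rw [bdry_push, e2, push_push]
    congr 2
    ext b
    exact h2 b.1 b.2

theorem tr_surj {P' Q' : Set C} (hQ : Q' ⊆ P') (π : C(B, C)) (s : C(P', B))
    (h1 : ∀ x, π (s x) = x.1) {n : ℕ}
    {d : Sing C n →₀ ℚ} (hd : d ∈ sp Q' n) (hc : d ∈ Cyc C n) :
    ∃ e ∈ sp (π ⁻¹' Q') n, e ∈ Cyc B n ∧ push π n e = d := by
  obtain ⟨d', hd', rfl⟩ := lift_sp hQ hd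
  refine ⟨push s n d', push_mem_sp s ?_ hd', push_mem_Cyc _ _ _
    (mem_Cyc_of_push _ Subtype.val_injective hc), ?_⟩
  · intro x hx
    change π (s x) ∈ Q'
    rw [h1]
    exact hx
  · rw [push_push]
    congr 2
    ext x
    exact h1 x

theorem comparison {P' N' : Set C} (hP : IsOpen P') (hN : IsOpen N')
    (hc : ∀ x, x ∈ P' ∨ x ∈ N') (π : C(B, C)) (s : C(P', B)) (h1 : ∀ x, π (s x) = x.1)
    (h2 : ∀ b (hb : π b ∈ P'), s ⟨π b, hb⟩ = b) {n : ℕ} (hC : Ac C (n + 1))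
    {z : Sing B (n + 1) →₀ ℚ} (hz : z ∈ Cyc B (n + 1)) :
    ∃ v ∈ sp (π ⁻¹' N') (n + 1), v ∈ Cyc B (n + 1) ∧ z - v ∈ Bdy B (n + 1) := by
  have oP : IsOpen (π ⁻¹' P') := hP.preimage π.continuous
  have oN : IsOpen (π ⁻¹' N') := hN.preimage π.continuous
  have hQ : P' ∩ N' ⊆ P' := Set.inter_subset_left
  obtain ⟨u, hu, v, hv, a1, a2, a3⟩ := split_univ (π ⁻¹' P') (π ⁻¹' N') oP oN
    (fun x => hc (π x)) hz
  have mP : Set.MapsTo π (π ⁻¹' P') P' := fun _ h => h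
  have mN : Set.MapsTo π (π ⁻¹' N') N' := fun _ h => h
  -- the boundary of `u` bounds
  have b1 : push π (n + 1) u + push π (n + 1) v ∈ Bdy C (n + 1) := by
    apply hC
    apply mem_Cyc_of_bdry
    rw [map_add, bdry_push, bdry_push, ← map_add, a3, map_zero]
  have b2 := conn_univ P' N' hP hN hc (push_mem_sp π mP hu) (push_mem_sp π mN hv) b1
  rw [bdry_push] at b2
  have b3 : bdry B n u ∈ Bd (π ⁻¹' (P' ∩ N')) n := tr_inj hQ π s h1 h2 (bdry_mem_sp hu) b2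
  obtain ⟨e, he, he1⟩ := b3
  have heP : e ∈ sp (π ⁻¹' P') (n + 1) := sp_mono (fun _ h => h.1) _ he
  have heN : e ∈ sp (π ⁻¹' N') (n + 1) := sp_mono (fun _ h => h.2) _ he
  have c1 : u - e ∈ sp (π ⁻¹' P') (n + 1) := Submodule.sub_mem _ hu heP
  have c2 : u - e ∈ Cyc B (n + 1) := by
    apply mem_Cyc_of_bdry
    rw [map_sub, he1, sub_self]
  have c3 : v + e ∈ sp (π ⁻¹' N') (n + 1) := Submodule.add_mem _ hv heN
  have c4 : v + e ∈ Cyc B (n + 1) := by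
    apply mem_Cyc_of_bdry
    rw [map_add, he1, add_comm]
    exact a3
  -- move `u - e` into the overlap
  have d1 : push π (n + 1) (u - e) + 0 ∈ Bdy C (n + 1) := by
    rw [add_zero]
    exact hC _ (push_mem_Cyc _ _ _ c2)
  obtain ⟨d, hd, hdc, d2, _⟩ := inj_univ P' N' hP hN hc (push_mem_sp π mP c1)
    (Submodule.zero_mem _) (push_mem_Cyc _ _ _ c2) (Submodule.zero_mem _) d1
  obtain ⟨d', hd', hdc', rfl⟩ := tr_surj hQ π s h1 hd hdc
  have hdP : d' ∈ sp (π ⁻¹' P') (n + 1) := sp_mono (fun _ h => h.1) _ hd'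
  have hdN : d' ∈ sp (π ⁻¹' N') (n + 1) := sp_mono (fun _ h => h.2) _ hd'
  rw [← map_sub] at d2
  have d3 : u - e - d' ∈ Bd (π ⁻¹' P') (n + 1) :=
    tr_inj (le_refl P') π s h1 h2 (Submodule.sub_mem _ c1 hdP) d2
  refine ⟨d' + (v + e), Submodule.add_mem _ hdN c3, Submodule.add_mem _ hdc' c4, ?_⟩
  have e1 := Submodule.add_mem _ a1 (Bd_le_Bdy _ _ d3)
  have e2 : z - (u + v) + (u - e - d') = z - (d' + (v + e)) := by abel
  rwa [e2] at e1

end Comp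

/-! Removing contractible closed subsets. -/

section Remove

variable {B : Type u} [TopologicalSpace B] {A J : Type} [Fintype A] [Fintype J]

/-- the 2-cycle `z` meets `L` with index `k`, measured in the neighbourhood `N` against `g` -/
def Idx (L N : Set B) (g : Sing B 1 →₀ ℚ) (z : Sing B 2 →₀ ℚ) (k : ℚ) : Prop :=
  ∃ u ∈ sp Lᶜ 2, ∃ v ∈ sp N 2, z - (u + v) ∈ Bdy B 2 ∧ bdry B 1 v - k • g ∈ Bd (Lᶜ ∩ N) 1

theorem Idx.add {L N : Set B} {g : Sing B 1 →₀ ℚ} {z z' : Sing B 2 →₀ ℚ} {k k' : ℚ}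
    (h : Idx L N g z k) (h' : Idx L N g z' k') : Idx L N g (z + z') (k + k') := by
  obtain ⟨u, hu, v, hv, h1, h2⟩ := h
  obtain ⟨u', hu', v', hv', h1', h2'⟩ := h'
  refine ⟨u + u', Submodule.add_mem _ hu hu', v + v', Submodule.add_mem _ hv hv', ?_, ?_⟩
  · have := Submodule.add_mem _ h1 h1'
    have e : z - (u + v) + (z' - (u' + v')) = z + z' - (u + u' + (v + v')) := by abel
    rwa [e] at this
  · have := Submodule.add_mem _ h2 h2'
    have e : bdry B 1 v - k • g + (bdry B 1 v' - k' • g) = bdry B 1 (v + v') - (k + k') • g := by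
      rw [map_add, add_smul]; abel
    rwa [e] at this

theorem Idx.smul {L N : Set B} {g : Sing B 1 →₀ ℚ} {z : Sing B 2 →₀ ℚ} {k : ℚ} (c : ℚ)
    (h : Idx L N g z k) : Idx L N g (c • z) (c * k) := by
  obtain ⟨u, hu, v, hv, h1, h2⟩ := h
  refine ⟨c • u, Submodule.smul_mem _ _ hu, c • v, Submodule.smul_mem _ _ hv, ?_, ?_⟩
  · have := Submodule.smul_mem _ c h1
    rwa [smul_sub, smul_add] at this
  · have := Submodule.smul_mem _ c h2
    rwa [smul_sub, smul_smul, ← map_smul] at this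

theorem Idx.zero {L N : Set B} {g : Sing B 1 →₀ ℚ} : Idx L N g 0 0 := by
  refine ⟨0, Submodule.zero_mem _, 0, Submodule.zero_mem _, ?_, ?_⟩
  · simp
  · simp

theorem Idx.sum {L N : Set B} {g : Sing B 1 →₀ ℚ} {μ : J → (Sing B 2 →₀ ℚ)} {M : J → ℚ}
    (c : J → ℚ) (h : ∀ j, Idx L N g (μ j) (M j)) :
    Idx L N g (∑ j, c j • μ j) (∑ j, c j * M j) := by
  classical
  have : ∀ s : Finset J, Idx L N g (∑ j ∈ s, c j • μ j) (∑ j ∈ s, c j * M j) := by
    intro s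
    induction s using Finset.induction_on with
    | empty => simpa using Idx.zero
    | insert a s ha ih =>
      rw [Finset.sum_insert ha, Finset.sum_insert ha]
      exact ((h a).smul (c a)).add ih
  exact this _

theorem Idx.congr {L N : Set B} {g : Sing B 1 →₀ ℚ} {z z' : Sing B 2 →₀ ℚ} {k : ℚ}
    (h : Idx L N g z k) (hz : z' - z ∈ Bdy B 2) : Idx L N g z' k := by
  obtain ⟨u, hu, v, hv, h1, h2⟩ := h
  refine ⟨u, hu, v, hv, ?_, h2⟩
  have := Submodule.add_mem _ hz h1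
  have e : z' - z + (z - (u + v)) = z' - (u + v) := by abel
  rwa [e] at this

theorem Idx.of_sp {L N : Set B} {g : Sing B 1 →₀ ℚ} {z : Sing B 2 →₀ ℚ} (hz : z ∈ sp Lᶜ 2) :
    Idx L N g z 0 := by
  refine ⟨z, hz, 0, Submodule.zero_mem _, ?_, ?_⟩
  · simp
  · simp

theorem Idx.unique {L N : Set B} (hL : IsClosed L) (hN : IsOpen N) (hLN : L ⊆ N)
    {g : Sing B 1 →₀ ℚ} (hg : g ∉ Bd (Lᶜ ∩ N) 1) {z : Sing B 2 →₀ ℚ} {k k' : ℚ}
    (h : Idx L N g z k) (h' : Idx L N g z k') : k = k' := by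
  obtain ⟨u, hu, v, hv, h1, h2⟩ := h
  obtain ⟨u', hu', v', hv', h1', h2'⟩ := h'
  have h3 : (u' - u) + (v' - v) ∈ Bdy B 2 := by
    have := Submodule.sub_mem _ h1 h1'
    have e : z - (u + v) - (z - (u' + v')) = (u' - u) + (v' - v) := by abel
    rwa [e] at this
  have h4 := conn_univ Lᶜ N hL.isOpen_compl hN (fun x => by
    by_cases hx : x ∈ L
    · exact Or.inr (hLN hx)
    · exact Or.inl hx) (Submodule.sub_mem _ hu' hu) (Submodule.sub_mem _ hv' hv) h3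
  have h5 : bdry B 1 (u' - u) + bdry B 1 (v' - v) = 0 := by
    rw [← map_add]
    exact Bdy_le_Cyc 2 h3
  have h6 : bdry B 1 (v' - v) ∈ Bd (Lᶜ ∩ N) 1 := by
    have : bdry B 1 (v' - v) = - bdry B 1 (u' - u) := by
      rw [eq_neg_iff_add_eq_zero, add_comm]; exact h5
    rw [this]
    exact Submodule.neg_mem _ h4
  have h7 : (k - k') • g ∈ Bd (Lᶜ ∩ N) 1 := by
    have := Submodule.sub_mem _ (Submodule.sub_mem _ h2' h2) h6
    have e : bdry B 1 v' - k' • g - (bdry B 1 v - k • g) - bdry B 1 (v' - v) = (k - k') • g := by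
      rw [map_sub, sub_smul]; abel
    rwa [e] at this
  by_contra hne
  apply hg
  have := Submodule.smul_mem _ (k - k')⁻¹ h7
  rwa [smul_smul, inv_mul_cancel₀ (sub_ne_zero.mpr hne), one_smul] at this

variable (L N : A → Set B) (g : A → (Sing B 1 →₀ ℚ)) (μ : J → (Sing B 2 →₀ ℚ)) (M : J → A → ℚ)

/-- hypotheses on the tubes -/
structure Tubes : Prop where
  hL : ∀ a, IsClosed (L a)
  hN : ∀ a, IsOpen (N a)
  hLN : ∀ a, L a ⊆ N a
  hd : ∀ a b, a ≠ b → Disjoint (N a) (N b)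
  aN : ∀ a n, AcO (N a) (n + 1)
  aT : ∀ a n, AcO ((L a)ᶜ ∩ N a) (n + 2)
  sT : ∀ a, ∀ z ∈ sp ((L a)ᶜ ∩ N a) 1, z ∈ Cyc B 1 → ∃ k : ℚ, z - k • g a ∈ Bd ((L a)ᶜ ∩ N a) 1
  nT : ∀ a, g a ∉ Bd ((L a)ᶜ ∩ N a) 1

variable {L N g}

theorem Tubes.open_compl (h : Tubes L N g) : IsOpen (⋃ a, L a)ᶜ :=
  (isClosed_iUnion_of_finite h.hL).isOpen_compl

theorem Tubes.cover (h : Tubes L N g) (x : B) : x ∈ (⋃ a, L a)ᶜ ∨ x ∈ ⋃ a, N a := by
  by_cases hx : x ∈ ⋃ a, L a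
  · right
    obtain ⟨a, ha⟩ := Set.mem_iUnion.mp hx
    exact Set.mem_iUnion.mpr ⟨a, h.hLN a ha⟩
  · left; exact hx

theorem Tubes.inter (h : Tubes L N g) : (⋃ a, L a)ᶜ ∩ (⋃ a, N a) = ⋃ a, ((L a)ᶜ ∩ N a) := by
  ext x
  simp only [Set.mem_inter_iff, Set.mem_compl_iff, Set.mem_iUnion, not_exists]
  constructor
  · rintro ⟨h1, a, ha⟩
    exact ⟨a, h1 a, ha⟩
  · rintro ⟨a, h1, ha⟩
    refine ⟨fun b hb => ?_, a, ha⟩
    by_cases hab : a = b
    · subst hab; exact h1 hb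
    · exact (Set.disjoint_iff.mp (h.hd a b hab)) ⟨ha, h.hLN b hb⟩

theorem Tubes.openT (h : Tubes L N g) (a : A) : IsOpen ((L a)ᶜ ∩ N a) :=
  (h.hL a).isOpen_compl.inter (h.hN a)

theorem Tubes.disjT (h : Tubes L N g) (a b : A) (hab : a ≠ b) :
    Disjoint ((L a)ᶜ ∩ N a) ((L b)ᶜ ∩ N b) :=
  (h.hd a b hab).mono Set.inter_subset_right Set.inter_subset_right

theorem Tubes.T_sub (_h : Tubes L N g) (h' : Tubes L N g) (a : A) :
    (L a)ᶜ ∩ N a ⊆ (⋃ a, L a)ᶜ := by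
  have h1 : (L a)ᶜ ∩ N a ⊆ ⋃ a, ((L a)ᶜ ∩ N a) := Set.subset_iUnion (fun a => (L a)ᶜ ∩ N a) a
  rw [← h'.inter] at h1
  exact h1.trans Set.inter_subset_left

/-- a 1-cycle of the overlap is a combination of the meridians -/
theorem Tubes.span1 (h : Tubes L N g) {d : Sing B 1 →₀ ℚ} (hd : d ∈ sp (⋃ a, ((L a)ᶜ ∩ N a)) 1)
    (hc : d ∈ Cyc B 1) : ∃ k : A → ℚ, ∀ a, res ((L a)ᶜ ∩ N a) 1 d - k a • g a ∈
      Bd ((L a)ᶜ ∩ N a) 1 := by
  have := fun a => h.sT a _ (res_mem _ d) (res_Cyc h.openT h.disjT hd hc a)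
  exact ⟨fun a => (this a).choose, fun a => (this a).choose_spec⟩

theorem Tubes.split_all (h : Tubes L N g) {z : Sing B 2 →₀ ℚ} (hz : z ∈ Cyc B 2) :
    ∃ k : A → ℚ, (∀ a, Idx (L a) (N a) (g a) z (k a)) ∧ ∑ a, k a • g a ∈ Bd (⋃ a, L a)ᶜ 1 := by
  classical
  obtain ⟨u, hu, v, hv, h1, h2, h3⟩ := split_univ (⋃ a, L a)ᶜ (⋃ a, N a) h.open_compl
    (isOpen_iUnion h.hN) h.cover hz
  have e1 : bdry B 1 v = - bdry B 1 u := by
    rw [eq_neg_iff_add_eq_zero, add_comm]; exact h3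
  have h4 : bdry B 1 v ∈ sp (⋃ a, ((L a)ᶜ ∩ N a)) 1 := by
    rw [← h.inter, e1]
    exact Submodule.neg_mem _ h2
  obtain ⟨k, hk⟩ := h.span1 h4 (bdry_mem_Cyc v)
  have h5 : ∀ a, bdry B 1 (res (N a) 2 v) = res ((L a)ᶜ ∩ N a) 1 (bdry B 1 v) := by
    intro a
    rw [bdry_res h.hN h.hd hv]
    have h6 : ∀ w ∈ sp (⋃ a, ((L a)ᶜ ∩ N a)) 1, res (N a) 1 w = res ((L a)ᶜ ∩ N a) 1 w := by
      intro w hw
      have := Sc.supported_map {σ : Sing B 1 | Set.range σ ⊆ ⋃ a, ((L a)ᶜ ∩ N a)}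
        (res (N a) 1 - res ((L a)ᶜ ∩ N a) 1) ⊥ (by
        intro σ hσ
        obtain ⟨b, hb⟩ := range_sub_of_disj h.openT h.disjT hσ
        rw [LinearMap.sub_apply, Submodule.mem_bot, sub_eq_zero]
        by_cases hab : b = a
        · subst hab
          rw [res_single_of hb, res_single_of (hb.trans Set.inter_subset_right)]
        · rw [res_single_of_not (not_range_sub (h.hd b a hab) (hb.trans Set.inter_subset_right)),
            res_single_of_not (not_range_sub (W := fun a => (L a)ᶜ ∩ N a)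
              (h.disjT b a hab) hb)]) w hw
      rw [Submodule.mem_bot, LinearMap.sub_apply, sub_eq_zero] at this
      exact this
    exact h6 _ h4
  have h6 := sum_res h.hN h.hd hv
  refine ⟨k, ?_, ?_⟩
  · intro a
    refine ⟨u + ∑ b ∈ Finset.univ.erase a, res (N b) 2 v, ?_, res (N a) 2 v, res_mem _ _, ?_, ?_⟩
    · apply Submodule.add_mem
      · refine sp_mono ?_ 2 hu
        intro x hx hx'
        exact hx (Set.mem_iUnion.mpr ⟨a, hx'⟩)
      · apply Submodule.sum_mem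
        intro b hb
        refine sp_mono ?_ 2 (res_mem (N b) v)
        intro x hx hx'
        exact (Set.disjoint_iff.mp (h.hd b a (Finset.ne_of_mem_erase hb))) ⟨hx, h.hLN a hx'⟩
    · have e2 : u + ∑ b ∈ Finset.univ.erase a, res (N b) 2 v + res (N a) 2 v = u + v := by
        rw [add_assoc, Finset.sum_erase_add _ _ (Finset.mem_univ a), ← h6]
      rw [e2]
      exact h1
    · rw [h5]
      exact hk a
  · have h7 : bdry B 1 v = ∑ a, res ((L a)ᶜ ∩ N a) 1 (bdry B 1 v) := sum_res h.openT h.disjT h4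
    have h8 : bdry B 1 v - ∑ a, k a • g a ∈ Bd (⋃ a, L a)ᶜ 1 := by
      rw [h7, ← Finset.sum_sub_distrib]
      apply Submodule.sum_mem
      intro a _
      exact Bd_mono (h.T_sub h a) 1 (hk a)
    have h9 : bdry B 1 v ∈ Bd (⋃ a, L a)ᶜ 1 := by
      rw [e1]
      exact Submodule.neg_mem _ (bdry_mem_Bd hu)
    have := Submodule.sub_mem _ h9 h8
    rwa [sub_sub_cancel] at this

variable {μ M}

/-- The main lemma on removing tubes. -/
theorem remove (h : Tubes L N g) (h1 : Ac B 1) (h3 : ∀ n, Ac B (n + 3))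
    (hμ : ∀ j, μ j ∈ Cyc B 2)
    (h2 : ∀ z ∈ Cyc B 2, ∃ c : J → ℚ, z - ∑ j, c j • μ j ∈ Bdy B 2)
    (hI : ∀ j a, Idx (L a) (N a) (g a) (μ j) (M j a))
    (Minj : ∀ c : J → ℚ, (∀ a, ∑ j, c j * M j a = 0) → c = 0)
    (Msurj : ∀ k : A → ℚ, ∃ c : J → ℚ, ∀ a, ∑ j, c j * M j a = k a) (n : ℕ) :
    AcO (⋃ a, L a)ᶜ (n + 1) := by
  -- moving to the overlap
  have key : ∀ (m : ℕ) (z : Sing B m →₀ ℚ), z ∈ sp (⋃ a, L a)ᶜ m → z ∈ Cyc B m → z ∈ Bdy B m →
      ∃ d ∈ sp (⋃ a, ((L a)ᶜ ∩ N a)) m, d ∈ Cyc B m ∧ z - d ∈ Bd (⋃ a, L a)ᶜ m := by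
    intro m z hz hc hb
    obtain ⟨d, hd, hdc, h4, _⟩ := inj_univ (⋃ a, L a)ᶜ (⋃ a, N a) h.open_compl
      (isOpen_iUnion h.hN) h.cover hz (Submodule.zero_mem _) hc (Submodule.zero_mem _)
      (by rwa [add_zero])
    rw [h.inter] at hd
    exact ⟨d, hd, hdc, h4⟩
  have key2 : ∀ (m : ℕ) (z : Sing B (m + 2) →₀ ℚ), z ∈ sp (⋃ a, L a)ᶜ (m + 2) →
      z ∈ Cyc B (m + 2) → z ∈ Bdy B (m + 2) → z ∈ Bd (⋃ a, L a)ᶜ (m + 2) := by
    intro m z hz hc hb
    obtain ⟨d, hd, hdc, h4⟩ := key _ z hz hc hb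
    have h5 := AcO_iUnion h.openT h.disjT (fun a => h.aT a m) d hd hdc
    have h6 : d ∈ Bd (⋃ a, L a)ᶜ (m + 2) := by
      rw [← h.inter] at h5
      exact Bd_mono Set.inter_subset_left _ h5
    have := Submodule.add_mem _ h4 h6
    rwa [sub_add_cancel] at this
  rcases n with _ | _ | n
  · -- degree one
    intro z hz hc
    obtain ⟨d, hd, hdc, h4⟩ := key 1 z hz hc (h1 z hc)
    obtain ⟨k, hk⟩ := h.span1 hd hdc
    obtain ⟨c, hcM⟩ := Msurj k
    have h5 : ∑ j, c j • μ j ∈ Cyc B 2 :=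
      Submodule.sum_mem _ fun j _ => Submodule.smul_mem _ _ (hμ j)
    obtain ⟨k', hk', h6⟩ := h.split_all h5
    have h7 : k' = k := by
      funext a
      have h8 := Idx.sum (L := L a) (N := N a) (g := g a) c (fun j => hI j a)
      rw [hcM a] at h8
      exact Idx.unique (h.hL a) (h.hN a) (h.hLN a) (h.nT a) (hk' a) h8
    rw [h7] at h6
    have h9 : d - ∑ a, k a • g a ∈ Bd (⋃ a, L a)ᶜ 1 := by
      rw [sum_res h.openT h.disjT hd, ← Finset.sum_sub_distrib]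
      apply Submodule.sum_mem
      intro a _
      exact Bd_mono (h.T_sub h a) 1 (hk a)
    have := Submodule.add_mem _ h4 (Submodule.add_mem _ h9 h6)
    have e : z - d + (d - ∑ a, k a • g a + ∑ a, k a • g a) = z := by abel
    rwa [e] at this
  · -- degree two
    intro z hz hc
    apply key2 0 z hz hc
    obtain ⟨c, hc2⟩ := h2 z hc
    have h4 : c = 0 := by
      apply Minj
      intro a
      have h5 : Idx (L a) (N a) (g a) z 0 := Idx.of_sp (sp_mono (by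
        intro x hx hx'
        exact hx (Set.mem_iUnion.mpr ⟨a, hx'⟩)) 2 hz)
      have h6 := (Idx.sum (L := L a) (N := N a) (g := g a) c (fun j => hI j a)).congr hc2
      exact Idx.unique (h.hL a) (h.hN a) (h.hLN a) (h.nT a) h6 h5
    rw [h4] at hc2
    simpa using hc2
  · intro z hz hc
    exact key2 (n + 1) z hz hc (h3 n z hc)

end Remove

end Pool.Agent.Y209.HB
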