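import Pool.Agent.Y209.HB.MV

/-! Chains supported in subsets, rational coefficients. -/

namespace Pool.Agent.Y209.HB

universe u v w

open Finsupp

variable {X : Type u} [TopologicalSpace X] {Y : Type v} [TopologicalSpace Y]
  {Z : Type w} [TopologicalSpace Z]

/-- sum of the coefficients of a chain -/
noncomputable def ep (X : Type u) [TopologicalSpace X] (n : ℕ) : (Sing X n →₀ ℚ) →ₗ[ℚ] ℚ :=
  Finsupp.linearCombination ℚ (fun _ => (1 : ℚ))

theorem ep_single (n : ℕ) (σ : Sing X n) (a : ℚ) : ep X n (single σ a) = a := by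
  simp [ep]

theorem ep_push (f : C(X, Y)) (n : ℕ) (z : Sing X n →₀ ℚ) : ep Y n (push f n z) = ep X n z := by
  have : (ep Y n).comp (push f n) = ep X n := by
    apply Finsupp.lhom_ext'
    intro σ
    apply LinearMap.ext_ring
    simp only [LinearMap.comp_apply, lsingle_apply]
    rw [push_single, ep_single, ep_single]
  exact LinearMap.congr_fun this z

theorem bdry_single (n : ℕ) (σ : Sing X (n + 1)) : bdry X n (single σ 1) =
    ∑ i : Fin (n + 2), ((-1 : ℚ) ^ (i : ℕ)) • single (sface n i σ) (1 : ℚ) :=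
  Sc.bd_single _ n σ

theorem ep_bdry (z : Sing X 1 →₀ ℚ) : ep X 0 (bdry X 0 z) = 0 := by
  have : (ep X 0).comp (bdry X 0) = 0 := by
    apply Finsupp.lhom_ext'
    intro σ
    apply LinearMap.ext_ring
    simp only [LinearMap.comp_apply, lsingle_apply, LinearMap.zero_apply]
    rw [bdry_single, map_sum]
    simp only [map_smul, ep_single]
    simp [Fin.sum_univ_succ]
  exact LinearMap.congr_fun this z

/-- the constant simplex -/
def cs (x : X) (m : ℕ) : Sing X m := ContinuousMap.const _ x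

theorem sface_cs (x : X) (m : ℕ) (i : Fin (m + 2)) : sface m i (cs x (m + 1)) = cs x m := rfl

theorem sum_signs (n : ℕ) : ∑ i : Fin n, (-1 : ℚ) ^ (i : ℕ) = if Even n then 0 else 1 := by
  induction n with
  | zero => simp
  | succ n ih =>
    rw [Fin.sum_univ_castSucc]
    simp only [Fin.val_castSucc, Fin.val_last, ih]
    rcases Nat.even_or_odd n with h | h
    · rw [if_pos h, h.neg_one_pow, if_neg (by simpa [Nat.even_add_one] using h)]
      simp
    · rw [if_neg (by simpa using h), h.neg_one_pow,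
        if_pos (by simpa [Nat.even_add_one] using h)]
      simp

theorem bdry_cs (x : X) (m : ℕ) : bdry X m (single (cs x (m + 1)) 1) =
    (if Even m then (0 : ℚ) else 1) • single (cs x m) 1 := by
  rw [bdry_single]
  simp only [sface_cs]
  rw [← Finset.sum_smul, sum_signs]
  congr 1
  simp [Nat.even_add]

theorem push_const (x : X) (m : ℕ) (z : Sing Y m →₀ ℚ) :
    push (ContinuousMap.const Y x) m z = ep Y m z • single (cs x m) 1 := by
  have : push (ContinuousMap.const Y x) m =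
      (LinearMap.toSpanSingleton ℚ (Sing X m →₀ ℚ) (single (cs x m) 1)).comp (ep Y m) := by
    apply Finsupp.lhom_ext'
    intro σ
    apply LinearMap.ext_ring
    simp only [LinearMap.comp_apply, lsingle_apply]
    rw [push_single, ep_single, LinearMap.toSpanSingleton_apply, one_smul]
    rfl
  rw [this]
  rfl

/-- the push forward of a positive degree cycle to a point bounds -/
theorem const_Bdy (x : X) {m : ℕ} {z : Sing Y (m + 1) →₀ ℚ} (hz : z ∈ Cyc Y (m + 1)) :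
    push (ContinuousMap.const Y x) (m + 1) z ∈ Bdy X (m + 1) := by
  rw [push_const]
  rcases Nat.even_or_odd m with h | h
  · refine ⟨ep Y (m + 1) z • single (cs x (m + 2)) 1, ?_⟩
    rw [map_smul, bdry_cs, if_neg (by simpa [Nat.even_add_one] using h), one_smul]
  · have h1 : bdry X m (push (ContinuousMap.const Y x) (m + 1) z) = 0 := by
      rw [bdry_push]
      have : bdry Y m z = 0 := hz
      rw [this, map_zero]
    rw [push_const, map_smul, bdry_cs, if_neg (by simpa using h), one_smul] at h1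
    have h2 : ep Y (m + 1) z = 0 := by
      have h3 := congrArg (fun c : Sing X m →₀ ℚ => c (cs x m)) h1
      simpa using h3
    rw [h2, zero_smul]
    exact Submodule.zero_mem _

/-- chains supported in a subset -/
noncomputable def sp (O : Set X) (m : ℕ) : Submodule ℚ (Sing X m →₀ ℚ) :=
  Finsupp.supported ℚ ℚ {σ : Sing X m | Set.range σ ⊆ O}

theorem single_mem_sp {O : Set X} {m : ℕ} {σ : Sing X m} (h : Set.range σ ⊆ O) :
    single σ (1 : ℚ) ∈ sp O m := Sc.single_mem_supported' h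

theorem mem_sp_univ {m : ℕ} (z : Sing X m →₀ ℚ) : z ∈ sp (Set.univ : Set X) m := by
  rw [sp, Finsupp.mem_supported]
  intro σ _
  exact Set.subset_univ _

theorem sp_mono {O O' : Set X} (h : O ⊆ O') (m : ℕ) : sp O m ≤ sp O' m :=
  Finsupp.supported_mono fun _ hσ => Set.Subset.trans hσ h

theorem sp_inter {O₁ O₂ : Set X} {m : ℕ} {z : Sing X m →₀ ℚ} (h1 : z ∈ sp O₁ m)
    (h2 : z ∈ sp O₂ m) : z ∈ sp (O₁ ∩ O₂) m := by
  unfold sp at *
  rw [Finsupp.mem_supported] at *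
  intro σ hσ
  exact Set.subset_inter (h1 hσ) (h2 hσ)

theorem range_sface (n : ℕ) (i : Fin (n + 2)) (σ : Sing X (n + 1)) :
    Set.range (sface n i σ) ⊆ Set.range σ := by
  rintro _ ⟨x, rfl⟩
  exact ⟨_, rfl⟩

theorem bdry_mem_sp {O : Set X} {m : ℕ} {z : Sing X (m + 1) →₀ ℚ} (hz : z ∈ sp O (m + 1)) :
    bdry X m z ∈ sp O m := by
  refine Sc.supported_map _ (bdry X m) _ ?_ z hz
  intro σ hσ
  rw [bdry_single]
  apply Submodule.sum_mem
  intro i _
  apply Submodule.smul_mem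
  apply single_mem_sp
  exact (range_sface m i σ).trans hσ

theorem push_mem_sp (f : C(X, Y)) {O : Set X} {O' : Set Y} (h : Set.MapsTo f O O') {m : ℕ}
    {z : Sing X m →₀ ℚ} (hz : z ∈ sp O m) : push f m z ∈ sp O' m := by
  refine Sc.supported_map _ (push f m) _ ?_ z hz
  intro σ hσ
  rw [push_single]
  apply single_mem_sp
  rintro _ ⟨t, rfl⟩
  exact h (hσ ⟨t, rfl⟩)

theorem push_sub_mem_sp (O : Set X) {m : ℕ} (z : Sing O m →₀ ℚ) : push (sub O) m z ∈ sp O m :=
  mvx_support O m z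

theorem exists_lift {O : Set X} {m : ℕ} {z : Sing X m →₀ ℚ} (hz : z ∈ sp O m) :
    ∃ z' : Sing O m →₀ ℚ, push (sub O) m z' = z := mvx_lift O m z hz

theorem mem_Cyc_of_push (f : C(X, Y)) (hf : Function.Injective f) {m : ℕ} {z : Sing X m →₀ ℚ}
    (hz : push f m z ∈ Cyc Y m) : z ∈ Cyc X m := by
  cases m with
  | zero => exact Submodule.mem_top
  | succ m =>
    change bdry X m z = 0
    have h1 : bdry Y m (push f (m + 1) z) = 0 := hz
    rw [bdry_push] at h1
    have hinj : Function.Injective (push f m) := by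
      intro a b h
      simp only [push, Finsupp.lmapDomain_apply] at h
      refine Finsupp.mapDomain_injective ?_ h
      intro σ τ hst
      ext t
      exact hf (DFunLike.congr_fun hst t)
    apply hinj
    rw [h1, map_zero]

/-- boundaries of chains supported in a subset -/
noncomputable def Bd (O : Set X) (m : ℕ) : Submodule ℚ (Sing X m →₀ ℚ) :=
  (sp O (m + 1)).map (bdry X m)

theorem Bd_mono {O O' : Set X} (h : O ⊆ O') (m : ℕ) : Bd O m ≤ Bd O' m :=
  Submodule.map_mono (sp_mono h (m + 1))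

theorem Bd_le_sp (O : Set X) (m : ℕ) : Bd O m ≤ sp O m := by
  rintro _ ⟨w, hw, rfl⟩
  exact bdry_mem_sp hw

theorem Bd_le_Bdy (O : Set X) (m : ℕ) : Bd O m ≤ Bdy X m := by
  rintro _ ⟨w, _, rfl⟩
  exact ⟨w, rfl⟩

theorem Bd_univ (m : ℕ) : Bd (Set.univ : Set X) m = Bdy X m := by
  apply le_antisymm (Bd_le_Bdy _ m)
  rintro _ ⟨w, rfl⟩
  exact ⟨w, mem_sp_univ w, rfl⟩

theorem Bd_le_Cyc (O : Set X) (m : ℕ) : Bd O m ≤ Cyc X m := (Bd_le_Bdy O m).trans (Bdy_le_Cyc m)

theorem bdry_mem_Bd {O : Set X} {m : ℕ} {z : Sing X (m + 1) →₀ ℚ} (hz : z ∈ sp O (m + 1)) :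
    bdry X m z ∈ Bd O m := ⟨z, hz, rfl⟩

theorem push_mem_Bd (f : C(X, Y)) {O : Set X} {O' : Set Y} (h : Set.MapsTo f O O') {m : ℕ}
    {z : Sing X m →₀ ℚ} (hz : z ∈ Bd O m) : push f m z ∈ Bd O' m := by
  obtain ⟨w, hw, rfl⟩ := hz
  exact ⟨push f (m + 1) w, push_mem_sp f h hw, bdry_push f m w⟩

theorem push_sub_mem_Bd {O : Set X} {m : ℕ} {z : Sing O m →₀ ℚ} (hz : z ∈ Bdy O m) :
    push (sub O) m z ∈ Bd O m := by
  rw [← Bd_univ] at hz
  exact push_mem_Bd (sub O) (fun x _ => x.2) hz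

theorem mem_Bdy_of_push_sub {O : Set X} {m : ℕ} {z : Sing O m →₀ ℚ}
    (hz : push (sub O) m z ∈ Bd O m) : z ∈ Bdy O m := by
  obtain ⟨w, hw, h⟩ := hz
  obtain ⟨w', rfl⟩ := exists_lift hw
  refine ⟨w', ?_⟩
  apply mvx_inj_sub O m
  rw [← bdry_push, h]

/-- vanishing of the homology of a subset, in terms of supported chains -/
def AcO (O : Set X) (n : ℕ) : Prop := ∀ z ∈ sp O n, z ∈ Cyc X n → z ∈ Bd O n

/-- vanishing of homology -/
def Ac (X : Type u) [TopologicalSpace X] (n : ℕ) : Prop := ∀ z ∈ Cyc X n, z ∈ Bdy X n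

/-- homological connectedness of a subset -/
def CnO (O : Set X) : Prop := ∀ z ∈ sp O 0, ep X 0 z = 0 → z ∈ Bd O 0

/-- homological connectedness -/
def Cn (X : Type u) [TopologicalSpace X] : Prop := ∀ z : Sing X 0 →₀ ℚ, ep X 0 z = 0 → z ∈ Bdy X 0

theorem AcO_of_Ac {O : Set X} {n : ℕ} (h : Ac O n) : AcO O n := by
  intro z hz hc
  obtain ⟨z', rfl⟩ := exists_lift hz
  exact push_sub_mem_Bd (h z' (mem_Cyc_of_push _ Subtype.val_injective hc))

theorem Ac_of_AcO {O : Set X} {n : ℕ} (h : AcO O n) : Ac O n := by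
  intro z hz
  exact mem_Bdy_of_push_sub (h _ (push_sub_mem_sp O z) (push_mem_Cyc _ n z hz))

theorem CnO_of_Cn {O : Set X} (h : Cn O) : CnO O := by
  intro z hz hc
  obtain ⟨z', rfl⟩ := exists_lift hz
  rw [ep_push] at hc
  exact push_sub_mem_Bd (h z' hc)

theorem Cn_of_CnO {O : Set X} (h : CnO O) : Cn O := by
  intro z hz
  refine mem_Bdy_of_push_sub (h _ (push_sub_mem_sp O z) ?_)
  rw [ep_push, hz]

/-- contractible spaces are acyclic -/
theorem Ac_of_contr (H : C(X × unitInterval, X)) (x : X) (h0 : ∀ y, H (y, 0) = y)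
    (h1 : ∀ y, H (y, 1) = x) (n : ℕ) : Ac X (n + 1) := by
  intro z hz
  have h2 := push_sub_mem_of_homotopy H (ContinuousMap.id X) (ContinuousMap.const X x) h0 h1
    (n + 1) z hz
  rw [push_id] at h2
  have h3 := const_Bdy x hz
  have h4 := (Bdy X (n + 1)).sub_mem h3 h2
  rwa [sub_sub_cancel] at h4

theorem Cn_of_contr (H : C(X × unitInterval, X)) (x : X) (h0 : ∀ y, H (y, 0) = y)
    (h1 : ∀ y, H (y, 1) = x) : Cn X := by
  intro z hz
  have h2 := push_sub_mem_of_homotopy H (ContinuousMap.id X) (ContinuousMap.const X x) h0 h1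
    0 z Submodule.mem_top
  rw [push_id, push_const, hz, zero_smul, zero_sub] at h2
  exact (Submodule.neg_mem_iff _).mp h2

/-- star-shaped subsets of a real topological vector space, about `0` -/
theorem contr_star {E : Type u} [TopologicalSpace E] [AddCommGroup E] [Module ℝ E]
    [ContinuousSMul ℝ E] (S : Set E) (h0 : (0 : E) ∈ S)
    (h : ∀ x ∈ S, ∀ r : ℝ, 0 ≤ r → r ≤ 1 → r • x ∈ S) :
    (∀ n, Ac S (n + 1)) ∧ Cn S := by
  let H : C(S × unitInterval, S) :=
    ⟨fun p => ⟨(1 - (p.2 : ℝ)) • p.1.1, h _ p.1.2 _ (by linarith [p.2.2.2]) (by linarith [p.2.2.1])⟩,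
      by fun_prop⟩
  have h0' : ∀ y, H (y, 0) = y := by
    intro y
    apply Subtype.ext
    change (1 - ((0 : unitInterval) : ℝ)) • y.1 = y.1
    simp
  have h1' : ∀ y, H (y, 1) = ⟨0, h0⟩ := by
    intro y
    apply Subtype.ext
    change (1 - ((1 : unitInterval) : ℝ)) • y.1 = 0
    simp
  exact ⟨fun n => Ac_of_contr H _ h0' h1' n, Cn_of_contr H _ h0' h1'⟩

theorem Ac_of_HE {f : C(X, Y)} (hf : HE f) {n : ℕ} (h : Ac Y n) : Ac X n := by
  intro z hz
  exact (hf n).1 z hz (h _ (push_mem_Cyc f n z hz))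

theorem Ac_of_HE' {f : C(X, Y)} (hf : HE f) {n : ℕ} (h : Ac X n) : Ac Y n := by
  intro b hb
  obtain ⟨z, hz, h1⟩ := (hf n).2 b hb
  have h2 := (Bdy Y n).add_mem h1 (push_mem_Bdy f n z (h z hz))
  rwa [sub_add_cancel] at h2

theorem Cn_of_HE {f : C(X, Y)} (hf : HE f) (h : Cn Y) : Cn X := by
  intro z hz
  refine (hf 0).1 z Submodule.mem_top (h _ ?_)
  rw [ep_push, hz]

theorem Cn_of_HE' {f : C(X, Y)} (hf : HE f) (h : Cn X) : Cn Y := by
  intro b hb
  obtain ⟨z, _, h1⟩ := (hf 0).2 b Submodule.mem_top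
  have h3 : ep X 0 z = 0 := by
    obtain ⟨w, hw⟩ := h1
    have h4 := ep_bdry w
    rw [hw, map_sub, hb, ep_push, zero_sub, neg_eq_zero] at h4
    exact h4
  have h2 := (Bdy Y 0).add_mem h1 (push_mem_Bdy f 0 z (h z h3))
  rwa [sub_add_cancel] at h2

/-! Mayer-Vietoris for supported chains. -/

/-- a subset seen in a bigger subset -/
abbrev rs (O P : Set X) : Set O := {x | x.1 ∈ P}

theorem mapsTo_rs (O P : Set X) : Set.MapsTo (sub O) (rs O P) P := fun _ hx => hx

/-- the inclusion of a subset of a subset -/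
def rsub (O P : Set X) : C(rs O P, P) := ⟨fun x => ⟨x.1.1, x.2⟩, by fun_prop⟩

theorem split_univ (U V : Set X) (hU : IsOpen U) (hV : IsOpen V) (hUV : ∀ x, x ∈ U ∨ x ∈ V)
    {n : ℕ} {z : Sing X (n + 1) →₀ ℚ} (hz : z ∈ Cyc X (n + 1)) :
    ∃ u ∈ sp U (n + 1), ∃ v ∈ sp V (n + 1), z - (u + v) ∈ Bdy X (n + 1) ∧
      bdry X n u ∈ sp (U ∩ V) n ∧ bdry X n u + bdry X n v = 0 := by
  obtain ⟨u, v, d, _, h1, h2, h3⟩ := mv_split U V hU hV hUV n z hz
  refine ⟨_, push_sub_mem_sp U u, _, push_sub_mem_sp V v, h1, ?_, ?_⟩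
  · rw [bdry_push, h2, mvx_push_inl]
    exact push_sub_mem_sp _ _
  · rw [bdry_push, bdry_push, h2, h3, map_neg, mvx_push_inl, mvx_push_inr, add_neg_cancel]

theorem inj_univ (U V : Set X) (hU : IsOpen U) (hV : IsOpen V) (hUV : ∀ x, x ∈ U ∨ x ∈ V)
    {n : ℕ} {u v : Sing X n →₀ ℚ} (hu : u ∈ sp U n) (hv : v ∈ sp V n) (hcu : u ∈ Cyc X n)
    (hcv : v ∈ Cyc X n) (h : u + v ∈ Bdy X n) :
    ∃ d ∈ sp (U ∩ V) n, d ∈ Cyc X n ∧ u - d ∈ Bd U n ∧ v + d ∈ Bd V n := by
  obtain ⟨u', rfl⟩ := exists_lift hu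
  obtain ⟨v', rfl⟩ := exists_lift hv
  obtain ⟨d, hd, h1, h2⟩ := mv_inj U V hU hV hUV n u' v'
    (mem_Cyc_of_push _ Subtype.val_injective hcu) (mem_Cyc_of_push _ Subtype.val_injective hcv) h
  refine ⟨push (sub (U ∩ V)) n d, push_sub_mem_sp _ _, push_mem_Cyc _ n d hd, ?_, ?_⟩
  · have := push_sub_mem_Bd h1
    rwa [map_sub, mvx_push_inl] at this
  · have := push_sub_mem_Bd h2
    rwa [map_add, mvx_push_inr] at this

theorem conn_univ (U V : Set X) (hU : IsOpen U) (hV : IsOpen V) (hUV : ∀ x, x ∈ U ∨ x ∈ V)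
    {n : ℕ} {u v : Sing X (n + 1) →₀ ℚ} (hu : u ∈ sp U (n + 1)) (hv : v ∈ sp V (n + 1))
    (h : u + v ∈ Bdy X (n + 1)) : bdry X n u ∈ Bd (U ∩ V) n := by
  have hc : bdry X n u + bdry X n v = 0 := by
    rw [← map_add]
    exact Bdy_le_Cyc (n + 1) h
  obtain ⟨u', rfl⟩ := exists_lift hu
  obtain ⟨v', rfl⟩ := exists_lift hv
  rw [bdry_push, bdry_push] at hc
  obtain ⟨d, h1, h2⟩ := mvx_common U V n (bdry U n u') (- bdry V n v') (by
    rw [map_neg]
    exact eq_neg_of_add_eq_zero_left hc)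
  have h3 := mv_conn U V hU hV hUV n u' v' d h1 (by rw [← h2, neg_neg]) h
  rw [bdry_push, h1, mvx_push_inl]
  exact push_sub_mem_Bd h3

theorem rs_open {O P : Set X} (h : IsOpen P) : IsOpen (rs O P) := h.preimage continuous_subtype_val

theorem split_on {O U V : Set X} (hU : IsOpen U) (hV : IsOpen V) (hUV : ∀ x ∈ O, x ∈ U ∨ x ∈ V)
    (hUO : U ⊆ O) (hVO : V ⊆ O)
    {n : ℕ} {z : Sing X (n + 1) →₀ ℚ} (hzO : z ∈ sp O (n + 1)) (hz : z ∈ Cyc X (n + 1)) :
    ∃ u ∈ sp U (n + 1), ∃ v ∈ sp V (n + 1), z - (u + v) ∈ Bd O (n + 1) ∧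
      bdry X n u ∈ sp (U ∩ V) n ∧ bdry X n u + bdry X n v = 0 := by
  obtain ⟨z', rfl⟩ := exists_lift hzO
  obtain ⟨u, hu, v, hv, h1, h2, h3⟩ := split_univ (rs O U) (rs O V) (rs_open hU) (rs_open hV)
    (fun x => hUV x.1 x.2) (mem_Cyc_of_push _ Subtype.val_injective hz)
  refine ⟨_, push_mem_sp (sub O) (mapsTo_rs O U) hu, _, push_mem_sp (sub O) (mapsTo_rs O V) hv,
    ?_, ?_, ?_⟩
  · have := push_sub_mem_Bd h1
    rwa [map_sub, map_add] at this
  · rw [bdry_push]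
    exact push_mem_sp (sub O) (fun x hx => hx) h2
  · rw [bdry_push, bdry_push, ← map_add, h3, map_zero]

theorem lift_sp {O P : Set X} (h : P ⊆ O) {n : ℕ} {z : Sing X n →₀ ℚ} (hz : z ∈ sp P n) :
    ∃ z' ∈ sp (rs O P) n, push (sub O) n z' = z := by
  obtain ⟨w, rfl⟩ := exists_lift hz
  refine ⟨push (inclusionMap h) n w, ?_, ?_⟩
  · exact push_mem_sp (inclusionMap h) (fun x _ => x.2) (mem_sp_univ w)
  · rw [push_push]; rfl

theorem push_rs_Bd {O P : Set X} {n : ℕ} {z : Sing O n →₀ ℚ} (hz : z ∈ Bd (rs O P) n) :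
    push (sub O) n z ∈ Bd P n := push_mem_Bd (sub O) (mapsTo_rs O P) hz

theorem inj_on {O U V : Set X} (hU : IsOpen U) (hV : IsOpen V) (hUV : ∀ x ∈ O, x ∈ U ∨ x ∈ V)
    (hUO : U ⊆ O) (hVO : V ⊆ O)
    {n : ℕ} {u v : Sing X n →₀ ℚ} (hu : u ∈ sp U n) (hv : v ∈ sp V n) (hcu : u ∈ Cyc X n)
    (hcv : v ∈ Cyc X n) (h : u + v ∈ Bd O n) :
    ∃ d ∈ sp (U ∩ V) n, d ∈ Cyc X n ∧ u - d ∈ Bd U n ∧ v + d ∈ Bd V n := by
  obtain ⟨u', hu', rfl⟩ := lift_sp hUO hu
  obtain ⟨v', hv', rfl⟩ := lift_sp hVO hv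
  rw [← map_add] at h
  obtain ⟨d, hd, hdc, h1, h2⟩ := inj_univ (rs O U) (rs O V) (rs_open hU) (rs_open hV)
    (fun x => hUV x.1 x.2) hu' hv' (mem_Cyc_of_push _ Subtype.val_injective hcu)
    (mem_Cyc_of_push _ Subtype.val_injective hcv) (mem_Bdy_of_push_sub h)
  refine ⟨push (sub O) n d, push_mem_sp (sub O) (fun x hx => hx) hd, push_mem_Cyc _ n d hdc,
    ?_, ?_⟩
  · rw [← map_sub]; exact push_rs_Bd h1
  · rw [← map_add]; exact push_rs_Bd h2

theorem conn_on {O U V : Set X} (hU : IsOpen U) (hV : IsOpen V) (hUV : ∀ x ∈ O, x ∈ U ∨ x ∈ V)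
    (hUO : U ⊆ O) (hVO : V ⊆ O)
    {n : ℕ} {u v : Sing X (n + 1) →₀ ℚ} (hu : u ∈ sp U (n + 1)) (hv : v ∈ sp V (n + 1))
    (h : u + v ∈ Bd O (n + 1)) : bdry X n u ∈ Bd (U ∩ V) n := by
  obtain ⟨u', hu', rfl⟩ := lift_sp hUO hu
  obtain ⟨v', hv', rfl⟩ := lift_sp hVO hv
  rw [← map_add] at h
  have h1 := conn_univ (rs O U) (rs O V) (rs_open hU) (rs_open hV)
    (fun x => hUV x.1 x.2) hu' hv' (mem_Bdy_of_push_sub h)
  rw [bdry_push]
  exact push_mem_Bd (sub O) (fun x hx => hx) h1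

/-! Disjoint unions. -/

/-- restriction of chains to the simplices inside `O` -/
noncomputable def res (O : Set X) (m : ℕ) : (Sing X m →₀ ℚ) →ₗ[ℚ] (Sing X m →₀ ℚ) := by
  classical
  exact Finsupp.linearCombination ℚ (fun σ => if Set.range σ ⊆ O then single σ (1 : ℚ) else 0)

theorem res_single_of {O : Set X} {m : ℕ} {σ : Sing X m} (h : Set.range σ ⊆ O) :
    res O m (single σ 1) = single σ 1 := by
  classical
  rw [res, linearCombination_single, one_smul, if_pos h]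

theorem res_single_of_not {O : Set X} {m : ℕ} {σ : Sing X m} (h : ¬ Set.range σ ⊆ O) :
    res O m (single σ 1) = 0 := by
  classical
  rw [res, linearCombination_single, one_smul, if_neg h]

theorem res_mem (O : Set X) {m : ℕ} (z : Sing X m →₀ ℚ) : res O m z ∈ sp O m := by
  refine Sc.supported_map _ (res O m) _ ?_ z (mem_sp_univ z)
  intro σ _
  by_cases h : Set.range σ ⊆ O
  · rw [res_single_of h]; exact single_mem_sp h
  · rw [res_single_of_not h]; exact Submodule.zero_mem _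

theorem res_of_mem {O : Set X} {m : ℕ} {z : Sing X m →₀ ℚ} (hz : z ∈ sp O m) : res O m z = z := by
  have := Sc.supported_map {σ : Sing X m | Set.range σ ⊆ O} (res O m - LinearMap.id) ⊥ (by
    intro σ hσ
    rw [LinearMap.sub_apply, res_single_of hσ]
    simp) z hz
  rw [Submodule.mem_bot, LinearMap.sub_apply, sub_eq_zero] at this
  exact this

section DU

variable {J : Type} [Fintype J] {W : J → Set X}

theorem range_sub_of_disj (hW : ∀ j, IsOpen (W j)) (hd : ∀ i j, i ≠ j → Disjoint (W i) (W j))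
    {m : ℕ} {σ : Sing X m} (h : Set.range σ ⊆ ⋃ j, W j) : ∃ j, Set.range σ ⊆ W j := by
  classical
  have hc : IsPreconnected (Set.range σ) := by
    have : PreconnectedSpace (stdSimplex ℝ (Fin (m + 1))) :=
      Subtype.preconnectedSpace (convex_stdSimplex ℝ (Fin (m + 1))).isPreconnected
    exact isPreconnected_range σ.continuous
  obtain ⟨j, hj⟩ := Set.mem_iUnion.mp (h ⟨Sc.vert m 0, rfl⟩)
  refine ⟨j, ?_⟩
  refine hc.subset_left_of_subset_union (v := ⋃ i ∈ {i | i ≠ j}, W i) (hW j)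
    (isOpen_biUnion fun i _ => hW i) ?_ ?_ ?_
  · rw [Set.disjoint_iff]
    rintro x ⟨hx, hx'⟩
    simp only [Set.mem_iUnion, Set.mem_setOf_eq] at hx'
    obtain ⟨i, hi, hx'⟩ := hx'
    exact (Set.disjoint_iff.mp (hd i j hi)) ⟨hx', hx⟩
  · intro x hx
    obtain ⟨i, hi⟩ := Set.mem_iUnion.mp (h hx)
    by_cases hij : i = j
    · left; rw [← hij]; exact hi
    · right
      simp only [Set.mem_iUnion, Set.mem_setOf_eq]
      exact ⟨i, hij, hi⟩
  · exact ⟨_, ⟨Sc.vert m 0, rfl⟩, hj⟩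

theorem not_range_sub {i j : J} (hd : Disjoint (W i) (W j)) {m : ℕ} {σ : Sing X m}
    (h : Set.range σ ⊆ W i) : ¬ Set.range σ ⊆ W j := by
  intro h'
  exact (Set.disjoint_iff.mp hd) ⟨h ⟨Sc.vert m 0, rfl⟩, h' ⟨Sc.vert m 0, rfl⟩⟩

theorem sum_res (hW : ∀ j, IsOpen (W j)) (hd : ∀ i j, i ≠ j → Disjoint (W i) (W j))
    {m : ℕ} {z : Sing X m →₀ ℚ} (hz : z ∈ sp (⋃ j, W j) m) : z = ∑ j, res (W j) m z := by
  classical
  have := Sc.supported_map {σ : Sing X m | Set.range σ ⊆ ⋃ j, W j}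
    (LinearMap.id - ∑ j, res (W j) m) ⊥ (by
    intro σ hσ
    obtain ⟨j, hj⟩ := range_sub_of_disj hW hd hσ
    rw [LinearMap.sub_apply, LinearMap.sum_apply, Submodule.mem_bot, sub_eq_zero,
      LinearMap.id_apply, Finset.sum_eq_single j]
    · rw [res_single_of hj]
    · intro i _ hij
      exact res_single_of_not (not_range_sub (hd j i (Ne.symm hij)) hj)
    · intro h
      exact absurd (Finset.mem_univ j) h) z hz
  rw [Submodule.mem_bot, LinearMap.sub_apply, sub_eq_zero, LinearMap.sum_apply] at this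
  exact this

theorem bdry_res (hW : ∀ j, IsOpen (W j)) (hd : ∀ i j, i ≠ j → Disjoint (W i) (W j))
    {m : ℕ} {z : Sing X (m + 1) →₀ ℚ} (hz : z ∈ sp (⋃ j, W j) (m + 1)) (j : J) :
    bdry X m (res (W j) (m + 1) z) = res (W j) m (bdry X m z) := by
  classical
  have := Sc.supported_map {σ : Sing X (m + 1) | Set.range σ ⊆ ⋃ j, W j}
    ((bdry X m).comp (res (W j) (m + 1)) - (res (W j) m).comp (bdry X m)) ⊥ (by
    intro σ hσ
    obtain ⟨k, hk⟩ := range_sub_of_disj hW hd hσ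
    rw [LinearMap.sub_apply, LinearMap.comp_apply, LinearMap.comp_apply, Submodule.mem_bot,
      sub_eq_zero]
    have hk' : ∀ i, Set.range (sface m i σ) ⊆ W k := fun i => (range_sface m i σ).trans hk
    by_cases hjk : k = j
    · subst hjk
      rw [res_single_of hk, bdry_single, map_sum]
      refine Finset.sum_congr rfl fun i _ => ?_
      rw [map_smul, res_single_of (hk' i)]
    · rw [res_single_of_not (not_range_sub (hd k j hjk) hk), map_zero, bdry_single, map_sum]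
      symm
      refine Finset.sum_eq_zero fun i _ => ?_
      rw [map_smul, res_single_of_not (not_range_sub (hd k j hjk) (hk' i)), smul_zero]) z hz
  rw [Submodule.mem_bot, LinearMap.sub_apply, sub_eq_zero] at this
  exact this

theorem res_Cyc (hW : ∀ j, IsOpen (W j)) (hd : ∀ i j, i ≠ j → Disjoint (W i) (W j))
    {m : ℕ} {z : Sing X m →₀ ℚ} (hz : z ∈ sp (⋃ j, W j) m) (hc : z ∈ Cyc X m) (j : J) :
    res (W j) m z ∈ Cyc X m := by
  cases m with
  | zero => exact Submodule.mem_top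
  | succ m =>
    have h0 : bdry X m z = 0 := hc
    change bdry X m _ = 0
    rw [bdry_res hW hd hz, h0, map_zero]

theorem res_Bd (hW : ∀ j, IsOpen (W j)) (hd : ∀ i j, i ≠ j → Disjoint (W i) (W j))
    {m : ℕ} {z : Sing X m →₀ ℚ} (hz : z ∈ Bd (⋃ j, W j) m) (j : J) :
    res (W j) m z ∈ Bd (W j) m := by
  obtain ⟨w, hw, rfl⟩ := hz
  refine ⟨res (W j) (m + 1) w, res_mem _ _, ?_⟩
  exact bdry_res hW hd hw j

theorem AcO_iUnion (hW : ∀ j, IsOpen (W j)) (hd : ∀ i j, i ≠ j → Disjoint (W i) (W j))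
    {m : ℕ} (h : ∀ j, AcO (W j) m) : AcO (⋃ j, W j) m := by
  intro z hz hc
  rw [sum_res hW hd hz]
  apply Submodule.sum_mem
  intro j _
  exact Bd_mono (Set.subset_iUnion W j) m (h j _ (res_mem _ _) (res_Cyc hW hd hz hc j))

end DU

end Pool.Agent.Y209.HB
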