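import Pool.Agent.Y209.HB.Base
import Pool.Agent.TH592.Nag.Bridge

/-! Explicit rational chains and Mathlib's singular homology. -/

namespace Pool.Agent.Y209.HB

open CategoryTheory AlgebraicTopology Limits

theorem bd_eq (X : Type) [TopologicalSpace X] (n : ℕ) :
    Pool.Agent.TH592.Nag.bd ℚ X n = bdry X n := by
  apply Finsupp.lhom_ext'
  intro σ
  apply LinearMap.ext_ring
  simp only [LinearMap.comp_apply, Finsupp.lsingle_apply]
  rw [bdry_single, Pool.Agent.TH592.Nag.bd, Finsupp.linearCombination_single, one_smul]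
  refine Finset.sum_congr rfl fun i _ => ?_
  have h : ((-1 : ℚ) ^ (i : ℕ)) = (((-1 : ℤ) ^ (i : ℕ) : ℤ) : ℚ) := by push_cast; rfl
  rw [h, Int.cast_smul_eq_zsmul]
  rfl

theorem isZero_of_Ac {X : Type} [TopologicalSpace X] {n : ℕ} (h : Ac X n) :
    IsZero ((((singularHomologyFunctor (ModuleCat.{0} ℚ) n).obj
      (ModuleCat.of ℚ ℚ)).obj (TopCat.of X) : ModuleCat.{0} ℚ)) := by
  obtain ⟨e⟩ := Pool.Agent.TH592.Nag.bridge ℚ X n
  have h1 : Subsingleton (Pool.Agent.TH592.Nag.Hm ℚ X n) := by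
    apply Submodule.Quotient.subsingleton_iff.mpr
    rw [eq_top_iff]
    rintro ⟨z, hz⟩ _
    change z ∈ Pool.Agent.TH592.Nag.bou ℚ X n
    have hz' : z ∈ Cyc X n := by
      cases n with
      | zero => exact Submodule.mem_top
      | succ n =>
        change bdry X n z = 0
        rw [← bd_eq]
        exact hz
    obtain ⟨w, hw⟩ := h z hz'
    refine ⟨w, ?_⟩
    rw [bd_eq]
    exact hw
  have h2 := e.toEquiv.subsingleton
  exact ModuleCat.isZero_of_subsingleton _

end Pool.Agent.Y209.HB
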