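import Pool.Agent.Y209.HB.Base

/-! The punctured plane. -/

namespace Pool.Agent.Y209.HB

universe u v w

open Finsupp

variable {X : Type u} [TopologicalSpace X] {Y : Type v} [TopologicalSpace Y]
  {Z : Type w} [TopologicalSpace Z]

/-- contraction of a subset -/
theorem contrO {O : Set X} (F : X × unitInterval → X)
    (hF : ContinuousOn F (O ×ˢ (Set.univ : Set unitInterval)))
    (hm : ∀ x ∈ O, ∀ t, F (x, t) ∈ O) (h0 : ∀ x ∈ O, F (x, 0) = x) (x0 : X)
    (h1 : ∀ x ∈ O, F (x, 1) = x0) (hne : x0 ∈ O) : (∀ n, AcO O (n + 1)) ∧ CnO O := by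
  let H : C(O × unitInterval, O) := ⟨fun p => ⟨F (p.1.1, p.2), hm _ p.1.2 _⟩, by
    apply Continuous.subtype_mk
    have h2 : Continuous (fun p : O × unitInterval => ((p.1.1, p.2) : X × unitInterval)) := by
      fun_prop
    exact hF.comp_continuous h2 (fun p => ⟨p.1.2, trivial⟩)⟩
  have e0 : ∀ y, H (y, 0) = y := fun y => Subtype.ext (h0 y.1 y.2)
  have e1 : ∀ y, H (y, 1) = ⟨x0, hne⟩ := fun y => Subtype.ext (h1 y.1 y.2)
  exact ⟨fun n => AcO_of_Ac (Ac_of_contr H _ e0 e1 n), CnO_of_Cn (Cn_of_contr H _ e0 e1)⟩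

/-- homotopies inside a subset -/
theorem htpyO {O : Set Y} (f g : C(X, Y)) (H : C(X × unitInterval, Y)) (hH : ∀ p, H p ∈ O)
    (h0 : ∀ x, H (x, 0) = f x) (h1 : ∀ x, H (x, 1) = g x) (n : ℕ) {z : Sing X n →₀ ℚ}
    (hz : z ∈ Cyc X n) : push g n z - push f n z ∈ Bd O n := by
  let H' : C(X × unitInterval, O) := ⟨fun p => ⟨H p, hH p⟩, by fun_prop⟩
  let f' : C(X, O) := ⟨fun x => ⟨f x, by rw [← h0]; exact hH _⟩, by fun_prop⟩
  let g' : C(X, O) := ⟨fun x => ⟨g x, by rw [← h1]; exact hH _⟩, by fun_prop⟩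
  have h2 := push_sub_mem_of_homotopy H' f' g' (fun x => Subtype.ext (h0 x))
    (fun x => Subtype.ext (h1 x)) n z hz
  have h3 := push_sub_mem_Bd h2
  rw [map_sub, push_push, push_push] at h3
  exact h3

theorem mem_Cyc_of_bdry {m : ℕ} {z : Sing X (m + 1) →₀ ℚ} (h : bdry X m z = 0) :
    z ∈ Cyc X (m + 1) := h

theorem bdry_of_mem_Cyc {m : ℕ} {z : Sing X (m + 1) →₀ ℚ} (h : z ∈ Cyc X (m + 1)) :
    bdry X m z = 0 := h

theorem bdry_mem_Cyc {m : ℕ} (z : Sing X (m + 1) →₀ ℚ) : bdry X m z ∈ Cyc X m :=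
  Bdy_le_Cyc m ⟨z, rfl⟩

/-- gluing of acyclicity -/
theorem AcO_of_cover {O U V : Set X} (hU : IsOpen U) (hV : IsOpen V)
    (hUV : ∀ x ∈ O, x ∈ U ∨ x ∈ V) (hUO : U ⊆ O) (hVO : V ⊆ O) {n : ℕ} (aU : AcO U (n + 1))
    (aV : AcO V (n + 1))
    (h : ∀ d ∈ sp (U ∩ V) n, d ∈ Cyc X n → (n = 0 → ep X n d = 0) → d ∈ Bd (U ∩ V) n) :
    AcO O (n + 1) := by
  intro z hz hc
  obtain ⟨u, hu, v, hv, h1, h2, h3⟩ := split_on hU hV hUV hUO hVO hz hc
  obtain ⟨e, he, h4⟩ := h (bdry X n u) h2 (bdry_mem_Cyc u) (by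
    rintro rfl
    exact ep_bdry u)
  have h5 : u - e ∈ Bd U (n + 1) := by
    apply aU
    · exact Submodule.sub_mem _ hu (sp_mono Set.inter_subset_left _ he)
    · apply mem_Cyc_of_bdry
      rw [map_sub, h4, sub_self]
  have h6 : v + e ∈ Bd V (n + 1) := by
    apply aV
    · exact Submodule.add_mem _ hv (sp_mono Set.inter_subset_right _ he)
    · apply mem_Cyc_of_bdry
      rw [map_add, h4, add_comm]
      exact h3
  have h7 := Submodule.add_mem _ h1 (Submodule.add_mem _ (Bd_mono hUO _ h5) (Bd_mono hVO _ h6))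
  have h8 : z - (u + v) + (u - e + (v + e)) = z := by abel
  rwa [h8] at h7

/-- spanning of the homology in the degree where the overlap has one class -/
theorem span_of_cover {O U V : Set X} (hU : IsOpen U) (hV : IsOpen V)
    (hUV : ∀ x ∈ O, x ∈ U ∨ x ∈ V) (hUO : U ⊆ O) (hVO : V ⊆ O) {n : ℕ} (aU : AcO U (n + 1))
    (aV : AcO V (n + 1)) {uu vv : Sing X (n + 1) →₀ ℚ} (huu : uu ∈ sp U (n + 1))
    (hvv : vv ∈ sp V (n + 1)) (huv : bdry X n uu + bdry X n vv = 0)
    (h : ∀ d ∈ sp (U ∩ V) n, d ∈ Cyc X n → (n = 0 → ep X n d = 0) →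
      ∃ k : ℚ, d - k • bdry X n uu ∈ Bd (U ∩ V) n)
    {z : Sing X (n + 1) →₀ ℚ} (hz : z ∈ sp O (n + 1)) (hc : z ∈ Cyc X (n + 1)) :
    ∃ k : ℚ, z - k • (uu + vv) ∈ Bd O (n + 1) := by
  obtain ⟨u, hu, v, hv, h1, h2, h3⟩ := split_on hU hV hUV hUO hVO hz hc
  obtain ⟨k, e, he, h4⟩ := h (bdry X n u) h2 (bdry_mem_Cyc u) (by
    rintro rfl
    exact ep_bdry u)
  refine ⟨k, ?_⟩
  have h5 : u - k • uu - e ∈ Bd U (n + 1) := by
    apply aU
    · exact Submodule.sub_mem _ (Submodule.sub_mem _ hu (Submodule.smul_mem _ _ huu))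
        (sp_mono Set.inter_subset_left _ he)
    · apply mem_Cyc_of_bdry
      rw [map_sub, map_sub, map_smul, h4, sub_self]
  have h6 : v - k • vv + e ∈ Bd V (n + 1) := by
    apply aV
    · exact Submodule.add_mem _ (Submodule.sub_mem _ hv (Submodule.smul_mem _ _ hvv))
        (sp_mono Set.inter_subset_right _ he)
    · apply mem_Cyc_of_bdry
      rw [map_add, map_sub, map_smul, h4]
      have e1 : bdry X n v = - bdry X n u := by rw [eq_neg_iff_add_eq_zero, add_comm]; exact h3
      have e2 : bdry X n vv = - bdry X n uu := by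
        rw [eq_neg_iff_add_eq_zero, add_comm]; exact huv
      rw [e1, e2, smul_neg]
      abel
  have h7 := Submodule.add_mem _ h1 (Submodule.add_mem _ (Bd_mono hUO _ h5) (Bd_mono hVO _ h6))
  have h8 : z - (u + v) + (u - k • uu - e + (v - k • vv + e)) = z - k • (uu + vv) := by
    rw [smul_add]
    abel
  rwa [h8] at h7

/-! The circle. -/

/-- right half circle, from `-i` to `i` -/
noncomputable def sR : Sing Circle 1 := ⟨fun t => Circle.exp (Real.pi * (t.1 1 - 1 / 2)), by
  have h : Continuous (fun t : stdSimplex ℝ (Fin 2) => t.1 1) :=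
    (continuous_apply 1).comp continuous_subtype_val
  exact Circle.exp.continuous.comp (continuous_const.mul (h.sub continuous_const))⟩

/-- left half circle, from `i` to `-i` -/
noncomputable def sL : Sing Circle 1 := ⟨fun t => Circle.exp (Real.pi * (t.1 1 + 1 / 2)), by
  have h : Continuous (fun t : stdSimplex ℝ (Fin 2) => t.1 1) :=
    (continuous_apply 1).comp continuous_subtype_val
  exact Circle.exp.continuous.comp (continuous_const.mul (h.add continuous_const))⟩

/-- the fundamental cycle of the circle -/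
noncomputable def g0 : Sing Circle 1 →₀ ℚ := single sR 1 + single sL 1

/-- the point `i` -/
noncomputable def ci : Circle := Circle.exp (Real.pi / 2)

/-- the point `-i` -/
noncomputable def cmi : Circle := Circle.exp (-(Real.pi / 2))

theorem map_zero_one (t : stdSimplex ℝ (Fin 1)) :
    (stdSimplex.map (Fin.succAbove (0 : Fin 2)) t).1 1 = 1 := by
  have h : t = stdSimplex.vertex 0 := Subsingleton.elim _ _
  rw [h, stdSimplex.map_vertex]
  simp

theorem map_one_one (t : stdSimplex ℝ (Fin 1)) :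
    (stdSimplex.map (Fin.succAbove (1 : Fin 2)) t).1 1 = 0 := by
  have h : t = stdSimplex.vertex 0 := Subsingleton.elim _ _
  rw [h, stdSimplex.map_vertex]
  simp

theorem face_sR0 : sface 0 0 sR = cs ci 0 := by
  ext t
  change ((Circle.exp (Real.pi * ((stdSimplex.map (Fin.succAbove (0 : Fin 2)) t).1 1 - 1 / 2)) :
    Circle) : ℂ) = _
  rw [map_zero_one]
  change _ = ((Circle.exp (Real.pi / 2) : Circle) : ℂ)
  congr 2
  ring

theorem face_sR1 : sface 0 1 sR = cs cmi 0 := by
  ext t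
  change ((Circle.exp (Real.pi * ((stdSimplex.map (Fin.succAbove (1 : Fin 2)) t).1 1 - 1 / 2)) :
    Circle) : ℂ) = _
  rw [map_one_one]
  change _ = ((Circle.exp (-(Real.pi / 2)) : Circle) : ℂ)
  congr 2
  ring

theorem face_sL0 : sface 0 0 sL = cs cmi 0 := by
  ext t
  change ((Circle.exp (Real.pi * ((stdSimplex.map (Fin.succAbove (0 : Fin 2)) t).1 1 + 1 / 2)) :
    Circle) : ℂ) = _
  rw [map_zero_one]
  change _ = ((Circle.exp (-(Real.pi / 2)) : Circle) : ℂ)
  have : Real.pi * (1 + 1 / 2) = -(Real.pi / 2) + 2 * Real.pi := by ring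
  rw [this, Circle.exp_add_two_pi]

theorem face_sL1 : sface 0 1 sL = cs ci 0 := by
  ext t
  change ((Circle.exp (Real.pi * ((stdSimplex.map (Fin.succAbove (1 : Fin 2)) t).1 1 + 1 / 2)) :
    Circle) : ℂ) = _
  rw [map_one_one]
  change _ = ((Circle.exp (Real.pi / 2) : Circle) : ℂ)
  congr 2
  ring

theorem bdry_sR : bdry Circle 0 (single sR 1) = single (cs ci 0) 1 - single (cs cmi 0) 1 := by
  rw [bdry_single, Fin.sum_univ_two, face_sR0, face_sR1]
  simp [sub_eq_add_neg]

theorem bdry_sL : bdry Circle 0 (single sL 1) = single (cs cmi 0) 1 - single (cs ci 0) 1 := by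
  rw [bdry_single, Fin.sum_univ_two, face_sL0, face_sL1]
  simp [sub_eq_add_neg]

theorem g0_Cyc : g0 ∈ Cyc Circle 1 := by
  apply mem_Cyc_of_bdry
  rw [g0, map_add, bdry_sR, bdry_sL]
  abel

/-! The punctured plane. -/

/-- the punctured plane -/
abbrev P0 : Type := {z : ℂ // z ≠ 0}

/-- the circle in the punctured plane -/
noncomputable def cP : C(Circle, P0) := ⟨fun z => ⟨(z : ℂ), Circle.coe_ne_zero z⟩, by fun_prop⟩

/-- the slit plane -/
def PU : Set P0 := {z | z.1 ∈ Complex.slitPlane}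

/-- the opposite slit plane -/
def PV : Set P0 := {z | -z.1 ∈ Complex.slitPlane}

/-- upper and lower half planes -/
def PW : Bool → Set P0
  | true => {z | 0 < z.1.im}
  | false => {z | z.1.im < 0}

theorem PU_open : IsOpen PU := Complex.isOpen_slitPlane.preimage (by fun_prop)

theorem PV_open : IsOpen PV :=
  Complex.isOpen_slitPlane.preimage (f := fun z : P0 => -z.1) (by fun_prop)

theorem PUV (z : P0) : z ∈ PU ∨ z ∈ PV := by
  by_cases h : z.1 ∈ Complex.slitPlane
  · exact Or.inl h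
  · right
    change -z.1 ∈ Complex.slitPlane
    rw [Complex.mem_slitPlane_iff] at h ⊢
    push Not at h
    left
    have h1 : z.1.re ≠ 0 := fun h2 => z.2 (Complex.ext h2 h.2)
    simp only [Complex.neg_re]
    have := lt_of_le_of_ne h.1 h1
    linarith

theorem PW_open (b : Bool) : IsOpen (PW b) := by
  cases b
  · exact isOpen_lt (by fun_prop) continuous_const
  · exact isOpen_lt continuous_const (by fun_prop)

theorem PW_disj (a b : Bool) (h : a ≠ b) : Disjoint (PW a) (PW b) := by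
  rw [Set.disjoint_iff]
  rintro z ⟨h1, h2⟩
  cases a <;> cases b
  · exact h rfl
  · have h1' : z.1.im < 0 := h1
    have h2' : 0 < z.1.im := h2
    linarith
  · have h1' : 0 < z.1.im := h1
    have h2' : z.1.im < 0 := h2
    linarith
  · exact h rfl

theorem PUV_inter : PU ∩ PV = ⋃ b, PW b := by
  ext z
  simp only [Set.mem_inter_iff, Set.mem_iUnion]
  constructor
  · rintro ⟨h1, h2⟩
    have h1' : z.1 ∈ Complex.slitPlane := h1
    have h2' : -z.1 ∈ Complex.slitPlane := h2
    rw [Complex.mem_slitPlane_iff] at h1' h2'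
    have h3 : z.1.im ≠ 0 := by
      intro h4
      simp only [Complex.neg_re, Complex.neg_im, h4, neg_zero, ne_eq, not_true_eq_false,
        or_false] at h1' h2'
      linarith
    rcases lt_or_gt_of_ne h3 with h4 | h4
    · exact ⟨false, h4⟩
    · exact ⟨true, h4⟩
  · rintro ⟨b, hb⟩
    have h3 : z.1.im ≠ 0 := by
      cases b
      · exact (show z.1.im < 0 from hb).ne
      · exact (show 0 < z.1.im from hb).ne'
    constructor
    · exact Complex.mem_slitPlane_iff.mpr (Or.inr h3)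
    · refine Complex.mem_slitPlane_iff.mpr (Or.inr ?_)
      simpa using h3

theorem conv_pos {a t : ℝ} (ha : 0 < a) (h0 : 0 ≤ t) (h1 : t ≤ 1) : 0 < (1 - t) * a + t := by
  rcases h1.lt_or_eq with h | h
  · have := mul_pos (sub_pos.mpr h) ha
    linarith
  · subst h
    norm_num

/-- straight line contractions in the punctured plane -/
theorem lin_contr (O : Set P0) (c : P0) (hc : c ∈ O)
    (h : ∀ x ∈ O, ∀ t : ℝ, 0 ≤ t → t ≤ 1 → ∃ h : (1 - (t : ℂ)) * x.1 + t * c.1 ≠ 0,
      (⟨(1 - (t : ℂ)) * x.1 + t * c.1, h⟩ : P0) ∈ O) :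
    (∀ n, AcO O (n + 1)) ∧ CnO O := by
  let H : C(O × unitInterval, O) := ⟨fun p => ⟨⟨(1 - ((p.2 : ℝ) : ℂ)) * p.1.1.1 +
    ((p.2 : ℝ) : ℂ) * c.1, (h _ p.1.2 _ p.2.2.1 p.2.2.2).1⟩, (h _ p.1.2 _ p.2.2.1 p.2.2.2).2⟩, by
      refine Continuous.subtype_mk (Continuous.subtype_mk ?_ _) _
      fun_prop⟩
  have h0 : ∀ y, H (y, 0) = y := by
    intro y
    apply Subtype.ext
    apply Subtype.ext
    change (1 - (((0 : unitInterval) : ℝ) : ℂ)) * y.1.1 + (((0 : unitInterval) : ℝ) : ℂ) * c.1 = y.1.1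
    simp
  have h1 : ∀ y, H (y, 1) = ⟨c, hc⟩ := by
    intro y
    apply Subtype.ext
    apply Subtype.ext
    change (1 - (((1 : unitInterval) : ℝ) : ℂ)) * y.1.1 + (((1 : unitInterval) : ℝ) : ℂ) * c.1 = c.1
    simp
  exact ⟨fun n => AcO_of_Ac (Ac_of_contr H _ h0 h1 n), CnO_of_Cn (Cn_of_contr H _ h0 h1)⟩

theorem PU_contr : (∀ n, AcO PU (n + 1)) ∧ CnO PU := by
  refine lin_contr PU ⟨1, one_ne_zero⟩ Complex.one_mem_slitPlane ?_
  intro x hx t h0 h1
  have h2 : (1 - (t : ℂ)) * x.1 + t * 1 ∈ Complex.slitPlane := by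
    have hx' : x.1 ∈ Complex.slitPlane := hx
    rw [Complex.mem_slitPlane_iff] at hx' ⊢
    simp only [Complex.add_re, Complex.mul_re, Complex.sub_re, Complex.one_re, Complex.ofReal_re,
      Complex.sub_im, Complex.one_im, Complex.ofReal_im, sub_self, zero_mul, sub_zero, mul_one,
      Complex.add_im, Complex.mul_im, add_zero, ne_eq, mul_eq_zero, not_or]
    rcases hx' with h | h
    · left
      exact conv_pos h h0 h1
    · by_cases h3 : 1 - t = 0
      · left
        rw [h3]
        have : t = 1 := by linarith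
        rw [this]; simp
      · right
        exact ⟨h3, h⟩
  exact ⟨Complex.slitPlane_ne_zero h2, h2⟩

theorem PV_contr : (∀ n, AcO PV (n + 1)) ∧ CnO PV := by
  refine lin_contr PV ⟨-1, neg_ne_zero.mpr one_ne_zero⟩ (by
    change -(-1 : ℂ) ∈ Complex.slitPlane
    rw [neg_neg]
    exact Complex.one_mem_slitPlane) ?_
  intro x hx t h0 h1
  have h2 : -((1 - (t : ℂ)) * x.1 + t * (-1)) ∈ Complex.slitPlane := by
    have hx' : -x.1 ∈ Complex.slitPlane := hx
    rw [Complex.mem_slitPlane_iff] at hx' ⊢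
    simp only [Complex.neg_re, Complex.neg_im, ne_eq, neg_eq_zero] at hx'
    have e : -((1 - (t : ℂ)) * x.1 + t * (-1)) = (t : ℂ) - (1 - t) * x.1 := by ring
    rw [e]
    simp only [Complex.mul_re, Complex.sub_re, Complex.one_re, Complex.ofReal_re,
      Complex.sub_im, Complex.one_im, Complex.ofReal_im, sub_self, zero_mul, sub_zero,
      Complex.mul_im, add_zero, ne_eq, zero_sub, neg_eq_zero, mul_eq_zero, not_or]
    rcases hx' with h | h
    · left
      have := conv_pos h h0 h1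
      linarith
    · by_cases h3 : 1 - t = 0
      · left
        rw [h3]
        have : t = 1 := by linarith
        rw [this]; simp
      · right
        exact ⟨h3, h⟩
  exact ⟨fun h => Complex.slitPlane_ne_zero h2 (by rw [h, neg_zero]), h2⟩

theorem ci_coe : ((ci : Circle) : ℂ) = Complex.I := by
  rw [ci, Circle.coe_exp]
  push_cast
  exact Complex.exp_pi_div_two_mul_I

theorem cmi_coe : ((cmi : Circle) : ℂ) = -Complex.I := by
  rw [cmi, Circle.coe_exp]
  push_cast
  rw [← neg_div]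
  exact Complex.exp_neg_pi_div_two_mul_I

/-- base points of the half planes -/
noncomputable def bp : Bool → P0
  | true => ⟨Complex.I, Complex.I_ne_zero⟩
  | false => ⟨-Complex.I, neg_ne_zero.mpr Complex.I_ne_zero⟩

theorem bp_mem (b : Bool) : bp b ∈ PW b := by
  cases b
  · change (-Complex.I).im < 0
    simp
  · change 0 < Complex.I.im
    simp

theorem PW_contr (b : Bool) : (∀ n, AcO (PW b) (n + 1)) ∧ CnO (PW b) := by
  refine lin_contr (PW b) (bp b) (bp_mem b) ?_
  intro x hx t h0 h1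
  cases b
  · have hx' : x.1.im < 0 := hx
    have h2 : ((1 - (t : ℂ)) * x.1 + t * (bp false).1).im < 0 := by
      simp only [bp, Complex.add_im, Complex.mul_im, Complex.sub_re, Complex.one_re,
        Complex.ofReal_re, Complex.sub_im, Complex.one_im, Complex.ofReal_im, sub_self, zero_mul,
        add_zero, Complex.neg_im, Complex.I_im]
      have := conv_pos (neg_pos.mpr hx') h0 h1
      linarith
    exact ⟨fun h => by rw [h] at h2; simp at h2, h2⟩
  · have hx' : 0 < x.1.im := hx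
    have h2 : 0 < ((1 - (t : ℂ)) * x.1 + t * (bp true).1).im := by
      simp only [bp, Complex.add_im, Complex.mul_im, Complex.sub_re, Complex.one_re,
        Complex.ofReal_re, Complex.sub_im, Complex.one_im, Complex.ofReal_im, sub_self, zero_mul,
        add_zero, Complex.I_im]
      have := conv_pos hx' h0 h1
      linarith
    exact ⟨fun h => by rw [h] at h2; simp at h2, h2⟩

/-- the loop in the punctured plane -/
noncomputable def gP : Sing P0 1 →₀ ℚ := push cP 1 g0

theorem gP_Cyc : gP ∈ Cyc P0 1 := push_mem_Cyc _ _ _ g0_Cyc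

/-- right half of the loop -/
noncomputable def gU : Sing P0 1 →₀ ℚ := push cP 1 (single sR 1)

/-- left half of the loop -/
noncomputable def gV : Sing P0 1 →₀ ℚ := push cP 1 (single sL 1)

theorem gP_eq : gP = gU + gV := by rw [gP, g0, map_add]; rfl

theorem gU_mem : gU ∈ sp PU 1 := by
  rw [gU, push_single]
  apply single_mem_sp
  rintro _ ⟨t, rfl⟩
  change ((Circle.exp (Real.pi * (t.1 1 - 1 / 2)) : Circle) : ℂ) ∈ Complex.slitPlane
  rw [Circle.coe_exp, Complex.mem_slitPlane_iff]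
  have h0 : 0 ≤ t.1 1 := t.2.1 1
  have h1 : t.1 1 ≤ 1 := by
    have h2 := t.2.2
    have h3 := t.2.1 0
    rw [Fin.sum_univ_two] at h2
    linarith
  rw [Complex.exp_ofReal_mul_I_re, Complex.exp_ofReal_mul_I_im]
  by_cases h : t.1 1 = 0
  · right
    rw [h]
    have : Real.pi * (0 - 1 / 2) = -(Real.pi / 2) := by ring
    rw [this, Real.sin_neg, Real.sin_pi_div_two]
    norm_num
  · by_cases h' : t.1 1 = 1
    · right
      rw [h']
      have : Real.pi * (1 - 1 / 2) = Real.pi / 2 := by ring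
      rw [this, Real.sin_pi_div_two]
      norm_num
    · left
      have h4 : 0 < t.1 1 := lt_of_le_of_ne h0 (Ne.symm h)
      have h5 : t.1 1 < 1 := lt_of_le_of_ne h1 h'
      apply Real.cos_pos_of_mem_Ioo
      constructor <;> nlinarith [Real.pi_pos]

theorem gV_mem : gV ∈ sp PV 1 := by
  rw [gV, push_single]
  apply single_mem_sp
  rintro _ ⟨t, rfl⟩
  change -((Circle.exp (Real.pi * (t.1 1 + 1 / 2)) : Circle) : ℂ) ∈ Complex.slitPlane
  rw [Circle.coe_exp, Complex.mem_slitPlane_iff]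
  have h0 : 0 ≤ t.1 1 := t.2.1 1
  have h1 : t.1 1 ≤ 1 := by
    have h2 := t.2.2
    have h3 := t.2.1 0
    rw [Fin.sum_univ_two] at h2
    linarith
  rw [Complex.neg_re, Complex.neg_im, Complex.exp_ofReal_mul_I_re, Complex.exp_ofReal_mul_I_im]
  have e : Real.pi * (t.1 1 + 1 / 2) = Real.pi * (t.1 1 - 1 / 2) + Real.pi := by ring
  rw [e, Real.cos_add_pi, Real.sin_add_pi, neg_neg, neg_neg]
  by_cases h : t.1 1 = 0
  · right
    rw [h]
    have : Real.pi * (0 - 1 / 2) = -(Real.pi / 2) := by ring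
    rw [this, Real.sin_neg, Real.sin_pi_div_two]
    norm_num
  · by_cases h' : t.1 1 = 1
    · right
      rw [h']
      have : Real.pi * (1 - 1 / 2) = Real.pi / 2 := by ring
      rw [this, Real.sin_pi_div_two]
      norm_num
    · left
      have h4 : 0 < t.1 1 := lt_of_le_of_ne h0 (Ne.symm h)
      have h5 : t.1 1 < 1 := lt_of_le_of_ne h1 h'
      apply Real.cos_pos_of_mem_Ioo
      constructor <;> nlinarith [Real.pi_pos]

theorem cP_ci (n : ℕ) : cP.comp (cs ci n) = cs (bp true) n := by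
  ext t
  exact ci_coe

theorem cP_cmi (n : ℕ) : cP.comp (cs cmi n) = cs (bp false) n := by
  ext t
  exact cmi_coe

theorem bdry_gU : bdry P0 0 gU = single (cs (bp true) 0) 1 - single (cs (bp false) 0) 1 := by
  rw [gU, bdry_push, bdry_sR, map_sub, push_single, push_single, cP_ci, cP_cmi]

theorem bdry_gUV : bdry P0 0 gU + bdry P0 0 gV = 0 := by
  rw [gU, gV, bdry_push, bdry_push, bdry_sR, bdry_sL, ← map_add]
  simp

theorem cs_range {O : Set X} {x : X} (h : x ∈ O) (n : ℕ) : Set.range (cs x n) ⊆ O := by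
  rintro _ ⟨t, rfl⟩
  exact h

theorem bp_mem_inter (b : Bool) : bp b ∈ PU ∩ PV := by
  rw [PUV_inter]
  exact Set.mem_iUnion.mpr ⟨b, bp_mem b⟩

theorem P0_Ac (n : ℕ) : Ac P0 (n + 2) := by
  have h : AcO (Set.univ : Set P0) (n + 2) := by
    refine AcO_of_cover PU_open PV_open (fun x _ => PUV x) (Set.subset_univ _) (Set.subset_univ _)
      (PU_contr.1 (n + 1)) (PV_contr.1 (n + 1)) ?_
    intro d hd hc _
    rw [PUV_inter] at hd ⊢
    exact AcO_iUnion PW_open PW_disj (fun b => (PW_contr b).1 n) d hd hc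
  intro z hz
  rw [← Bd_univ]
  exact h z (mem_sp_univ z) hz

/-- zero-chains of the overlap -/
theorem zero_overlap (d : Sing P0 0 →₀ ℚ) (hd : d ∈ sp (PU ∩ PV) 0) (h0 : ep P0 0 d = 0) :
    ∃ k : ℚ, d - k • bdry P0 0 gU ∈ Bd (PU ∩ PV) 0 := by
  rw [PUV_inter] at hd ⊢
  have h1 := sum_res PW_open PW_disj hd
  rw [Fintype.sum_bool] at h1
  set a := res (PW true) 0 d with ha
  set b := res (PW false) 0 d with hb
  refine ⟨ep P0 0 a, ?_⟩
  have h2 : ep P0 0 b = - ep P0 0 a := by
    rw [h1, map_add] at h0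
    linarith
  have h3 : a - ep P0 0 a • single (cs (bp true) 0) 1 ∈ Bd (PW true) 0 := by
    apply (PW_contr true).2
    · exact Submodule.sub_mem _ (res_mem _ _)
        (Submodule.smul_mem _ _ (single_mem_sp (cs_range (bp_mem true) 0)))
    · rw [map_sub, map_smul, ep_single, smul_eq_mul, mul_one, sub_self]
  have h4 : b + ep P0 0 a • single (cs (bp false) 0) 1 ∈ Bd (PW false) 0 := by
    apply (PW_contr false).2
    · exact Submodule.add_mem _ (res_mem _ _)
        (Submodule.smul_mem _ _ (single_mem_sp (cs_range (bp_mem false) 0)))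
    · rw [map_add, map_smul, ep_single, smul_eq_mul, mul_one, h2]
      ring
  have h5 := Submodule.add_mem _ (Bd_mono (Set.subset_iUnion PW true) 0 h3)
    (Bd_mono (Set.subset_iUnion PW false) 0 h4)
  rw [bdry_gU, h1]
  have h6 : a + b - ep P0 0 a • (single (cs (bp true) 0) 1 - single (cs (bp false) 0) 1) =
      a - ep P0 0 a • single (cs (bp true) 0) 1 +
      (b + ep P0 0 a • single (cs (bp false) 0) 1) := by
    rw [smul_sub]; abel
  rw [h6]
  exact h5

theorem P0_span (z : Sing P0 1 →₀ ℚ) (hz : z ∈ Cyc P0 1) : ∃ k : ℚ, z - k • gP ∈ Bdy P0 1 := by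
  obtain ⟨k, hk⟩ := span_of_cover (O := Set.univ) PU_open PV_open (fun x _ => PUV x)
    (Set.subset_univ _) (Set.subset_univ _) (PU_contr.1 0) (PV_contr.1 0) gU_mem gV_mem bdry_gUV
    (fun d hd _ h => zero_overlap d hd (h rfl)) (mem_sp_univ z) hz
  refine ⟨k, ?_⟩
  rw [gP_eq, ← Bd_univ]
  exact hk

theorem P0_ne : gP ∉ Bdy P0 1 := by
  intro h
  rw [gP_eq] at h
  have h1 := conn_univ PU PV PU_open PV_open PUV gU_mem gV_mem h
  rw [PUV_inter] at h1
  have h2 := res_Bd PW_open PW_disj h1 true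
  rw [bdry_gU, map_sub, res_single_of (cs_range (bp_mem true) 0), res_single_of_not, sub_zero] at h2
  · obtain ⟨w, _, hw⟩ := h2
    have h3 := ep_bdry w
    rw [hw, ep_single] at h3
    exact one_ne_zero h3
  · exact not_range_sub (PW_disj false true (by decide)) (cs_range (bp_mem false) 0)

theorem P0_Cn : Cn P0 := by
  intro z hz
  obtain ⟨u, v, rfl⟩ := mv_zero PU PV PUV z
  set a := push (sub PU) 0 u with ha
  set b := push (sub PV) 0 v with hb
  rw [← Bd_univ]
  have h1 : a - ep P0 0 a • single (cs (bp true) 0) 1 ∈ Bd PU 0 := by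
    apply PU_contr.2
    · exact Submodule.sub_mem _ (push_sub_mem_sp _ _)
        (Submodule.smul_mem _ _ (single_mem_sp (cs_range (bp_mem_inter true).1 0)))
    · rw [map_sub, map_smul, ep_single, smul_eq_mul, mul_one, sub_self]
  have h2 : b + ep P0 0 a • single (cs (bp true) 0) 1 ∈ Bd PV 0 := by
    apply PV_contr.2
    · exact Submodule.add_mem _ (push_sub_mem_sp _ _)
        (Submodule.smul_mem _ _ (single_mem_sp (cs_range (bp_mem_inter true).2 0)))
    · rw [map_add] at hz
      rw [map_add, map_smul, ep_single, smul_eq_mul, mul_one]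
      linarith
  have h3 := Submodule.add_mem _ (Bd_mono (Set.subset_univ _) 0 h1)
    (Bd_mono (Set.subset_univ _) 0 h2)
  have h4 : a - ep P0 0 a • single (cs (bp true) 0) 1 +
      (b + ep P0 0 a • single (cs (bp true) 0) 1) = a + b := by abel
  rwa [h4] at h3

end Pool.Agent.Y209.HB
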